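import Mathlib

/-!
# Averages over signs of multi-affine functions, and Bonami's inequality
-/

namespace Pool.Agent.R815.Ck

open Finset Function

variable {ι : Type} [DecidableEq ι]

/-- the sign vector of the set `A`, scaled by `r` -/
def sg (r : ℝ) (A : Finset ι) : ι → ℝ := fun c => if c ∈ A then r else -r

/-- average of `H` over all vectors of `{r, -r}^B` -/
noncomputable def Av (r : ℝ) (B : Finset ι) (H : (ι → ℝ) → ℝ) : ℝ :=
  (∑ A ∈ B.powerset, H (sg r A)) / 2 ^ B.card

/-- `H` depends only on the coordinates in `B` -/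
def Dep (B : Finset ι) (H : (ι → ℝ) → ℝ) : Prop :=
  ∀ t t', (∀ c ∈ B, t c = t' c) → H t = H t'

/-- `H` is affine in each coordinate -/
def Aff (H : (ι → ℝ) → ℝ) : Prop :=
  ∀ c t x, H (update t c x) = H (update t c 0) + x * (H (update t c 1) - H (update t c 0))

lemma Av_add (r : ℝ) (B : Finset ι) (H G : (ι → ℝ) → ℝ) :
    Av r B (fun t => H t + G t) = Av r B H + Av r B G := by
  unfold Av; rw [Finset.sum_add_distrib, add_div]

lemma Av_sub (r : ℝ) (B : Finset ι) (H G : (ι → ℝ) → ℝ) :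
    Av r B (fun t => H t - G t) = Av r B H - Av r B G := by
  unfold Av; rw [Finset.sum_sub_distrib, sub_div]

lemma Av_mul (r : ℝ) (B : Finset ι) (a : ℝ) (H : (ι → ℝ) → ℝ) :
    Av r B (fun t => a * H t) = a * Av r B H := by
  unfold Av; rw [← Finset.mul_sum, mul_div_assoc]

lemma Av_const (r : ℝ) (B : Finset ι) (a : ℝ) : Av r B (fun _ => a) = a := by
  unfold Av
  rw [Finset.sum_const, Finset.card_powerset, nsmul_eq_mul]
  push_cast
  field_simp

lemma Av_mono (r : ℝ) (B : Finset ι) {H G : (ι → ℝ) → ℝ} (h : ∀ A, H (sg r A) ≤ G (sg r A)) :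
    Av r B H ≤ Av r B G := by
  unfold Av
  exact div_le_div_of_nonneg_right (Finset.sum_le_sum fun A _ => h A) (by positivity)

lemma Av_nonneg (r : ℝ) (B : Finset ι) {H : (ι → ℝ) → ℝ} (h : ∀ t, 0 ≤ H t) : 0 ≤ Av r B H := by
  unfold Av
  exact div_nonneg (Finset.sum_nonneg fun A _ => h _) (by positivity)

lemma Av_cs (r : ℝ) (B : Finset ι) (H G : (ι → ℝ) → ℝ) :
    (Av r B (fun t => H t * G t)) ^ 2 ≤ Av r B (fun t => H t ^ 2) * Av r B (fun t => G t ^ 2) := by
  unfold Av
  rw [div_pow, div_mul_div_comm, ← sq]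
  exact div_le_div_of_nonneg_right (Finset.sum_mul_sq_le_sq_mul_sq _ _ _) (by positivity)

lemma sg_insert (r : ℝ) (A : Finset ι) (c : ι) : sg r (insert c A) = update (sg r A) c r := by
  funext d
  by_cases h : d = c
  · subst h; simp [sg]
  · simp [sg, h]

lemma sg_self (r : ℝ) {A : Finset ι} {c : ι} (h : c ∉ A) : sg r A = update (sg r A) c (-r) := by
  funext d
  by_cases hd : d = c
  · subst hd; simp [sg, h]
  · simp [hd]

lemma Av_insert (r : ℝ) {B : Finset ι} {c : ι} (hc : c ∉ B) (H : (ι → ℝ) → ℝ) :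
    Av r (insert c B) H = Av r B (fun t => (H (update t c r) + H (update t c (-r))) / 2) := by
  unfold Av
  rw [Finset.sum_powerset_insert hc, Finset.card_insert_of_notMem hc]
  have h1 : ∑ A ∈ B.powerset, H (sg r A) = ∑ A ∈ B.powerset, H (update (sg r A) c (-r)) := by
    apply Finset.sum_congr rfl
    intro A hA
    have : c ∉ A := fun h => hc (Finset.mem_powerset.mp hA h)
    rw [← sg_self r this]
  have h2 : ∑ A ∈ B.powerset, H (sg r (insert c A)) = ∑ A ∈ B.powerset, H (update (sg r A) c r) := by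
    apply Finset.sum_congr rfl
    intro A _
    rw [sg_insert]
  rw [h1, h2, ← Finset.sum_add_distrib, pow_succ, Finset.sum_div, Finset.sum_div]
  apply Finset.sum_congr rfl
  intro A _
  field_simp
  ring

/-- freezing a coordinate -/
lemma Aff.freeze {H : (ι → ℝ) → ℝ} (h : Aff H) (c : ι) (v : ℝ) : Aff fun t => H (update t c v) := by
  intro d t x
  simp only
  by_cases hd : d = c
  · subst hd
    simp only [update_idem]
    ring
  · simp only [update_comm hd]
    exact h d _ x

lemma Dep.freeze {H : (ι → ℝ) → ℝ} {B : Finset ι} {c : ι} (h : Dep (insert c B) H) (v : ℝ) :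
    Dep B fun t => H (update t c v) := by
  intro t t' ht
  apply h
  intro d hd
  by_cases hdc : d = c
  · subst hdc; simp
  · simp only [update_of_ne hdc]
    exact ht d ((Finset.mem_insert.mp hd).resolve_left hdc)

lemma Aff.sub {H G : (ι → ℝ) → ℝ} (h : Aff H) (g : Aff G) : Aff fun t => H t - G t := by
  intro c t x
  simp only
  rw [h c t x, g c t x]
  ring

lemma Dep.sub {H G : (ι → ℝ) → ℝ} {B : Finset ι} (h : Dep B H) (g : Dep B G) :
    Dep B fun t => H t - G t := by
  intro t t' ht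
  simp only
  rw [h t t' ht, g t t' ht]

/-- the affine part -/
def pA (H : (ι → ℝ) → ℝ) (c : ι) : (ι → ℝ) → ℝ := fun t => H (update t c 0)

/-- the slope -/
def pR (H : (ι → ℝ) → ℝ) (c : ι) : (ι → ℝ) → ℝ := fun t => H (update t c 1) - H (update t c 0)

lemma Aff.eq {H : (ι → ℝ) → ℝ} (h : Aff H) (c : ι) (t : ι → ℝ) (x : ℝ) :
    H (update t c x) = pA H c t + x * pR H c t := h c t x

lemma Aff.pA {H : (ι → ℝ) → ℝ} (h : Aff H) (c : ι) : Aff (pA H c) := h.freeze c 0

lemma Aff.pR {H : (ι → ℝ) → ℝ} (h : Aff H) (c : ι) : Aff (pR H c) :=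
  (h.freeze c 1).sub (h.freeze c 0)

lemma Dep.pA {H : (ι → ℝ) → ℝ} {B : Finset ι} {c : ι} (h : Dep (insert c B) H) : Dep B (pA H c) :=
  h.freeze 0

lemma Dep.pR {H : (ι → ℝ) → ℝ} {B : Finset ι} {c : ι} (h : Dep (insert c B) H) : Dep B (pR H c) :=
  (h.freeze 1).sub (h.freeze 0)

lemma update_zero_zero (c : ι) : update (0 : ι → ℝ) c 0 = 0 := by
  funext d
  by_cases h : d = c
  · subst h; simp
  · simp [h]

/-- the mean of a multi-affine function is its value at zero -/
lemma Av_mean (r : ℝ) (B : Finset ι) : ∀ H : (ι → ℝ) → ℝ, Aff H → Dep B H → Av r B H = H 0 := by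
  induction B using Finset.induction_on with
  | empty =>
    intro H _ hD
    have : H (sg r ∅) = H 0 := hD _ _ (by simp)
    simp [Av, this]
  | insert c B hc ih =>
    intro H hA hD
    rw [Av_insert r hc]
    have e : (fun t => (H (update t c r) + H (update t c (-r))) / 2) = pA H c := by
      funext t
      rw [hA.eq c t r, hA.eq c t (-r)]
      ring
    rw [e, ih _ (hA.pA c) hD.pA]
    simp only [pA, update_zero_zero]

/-- covariance with a coordinate -/
lemma Av_cov (r : ℝ) {B : Finset ι} {c : ι} (hc : c ∈ B) {H : (ι → ℝ) → ℝ} (hA : Aff H)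
    (hD : Dep B H) : Av r B (fun t => H t * t c) = r ^ 2 * pR H c 0 := by
  obtain ⟨B', hcB, rfl⟩ : ∃ B', c ∉ B' ∧ insert c B' = B :=
    ⟨B.erase c, Finset.notMem_erase c B, Finset.insert_erase hc⟩
  rw [Av_insert r hcB]
  have e : (fun t => (H (update t c r) * (update t c r) c
      + H (update t c (-r)) * (update t c (-r)) c) / 2) = fun t => r ^ 2 * pR H c t := by
    funext t
    rw [hA.eq c t r, hA.eq c t (-r)]
    simp only [update_self]
    ring
  rw [e, Av_mul, Av_mean r B' _ (hA.pR c) hD.pR]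

/-- contraction of the variance -/
lemma Av_var {r : ℝ} (hr : 0 ≤ r) (hr1 : r ≤ 1) (B : Finset ι) :
    ∀ H : (ι → ℝ) → ℝ, Aff H → Dep B H →
      Av r B (fun t => H t ^ 2) - H 0 ^ 2 ≤ r ^ 2 * (Av 1 B (fun t => H t ^ 2) - H 0 ^ 2) ∧
      0 ≤ Av 1 B (fun t => H t ^ 2) - H 0 ^ 2 := by
  have hr2 : r ^ 2 ≤ 1 := by nlinarith
  induction B using Finset.induction_on with
  | empty =>
    intro H _ hD
    have h1 : H (sg r ∅) = H 0 := hD _ _ (by simp)
    have h2 : H (sg 1 ∅) = H 0 := hD _ _ (by simp)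
    simp [Av, h1, h2]
  | insert c B hc ih =>
    intro H hA hD
    have key : ∀ s : ℝ, Av s (insert c B) (fun t => H t ^ 2)
        = Av s B (fun t => pA H c t ^ 2) + s ^ 2 * Av s B (fun t => pR H c t ^ 2) := by
      intro s
      rw [Av_insert s hc]
      have e : (fun t => (H (update t c s) ^ 2 + H (update t c (-s)) ^ 2) / 2)
          = fun t => pA H c t ^ 2 + s ^ 2 * pR H c t ^ 2 := by
        funext t
        rw [hA.eq c t s, hA.eq c t (-s)]
        ring
      rw [e, Av_add, Av_mul]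
    obtain ⟨a1, a2⟩ := ih _ (hA.pA c) hD.pA
    obtain ⟨b1, b2⟩ := ih _ (hA.pR c) hD.pR
    have h0 : pA H c 0 = H 0 := by simp only [pA, update_zero_zero]
    rw [h0] at a1 a2
    rw [key, key, one_pow, one_mul]
    have hR1 : 0 ≤ Av 1 B (fun t => pR H c t ^ 2) := Av_nonneg _ _ fun _ => sq_nonneg _
    have b3 : Av r B (fun t => pR H c t ^ 2) ≤ Av 1 B (fun t => pR H c t ^ 2) := by
      have : r ^ 2 * (Av 1 B (fun t => pR H c t ^ 2) - pR H c 0 ^ 2)
          ≤ 1 * (Av 1 B (fun t => pR H c t ^ 2) - pR H c 0 ^ 2) :=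
        mul_le_mul_of_nonneg_right hr2 b2
      linarith
    have b4 := mul_le_mul_of_nonneg_left b3 (sq_nonneg r)
    constructor
    · linarith
    · linarith

/-- Bonami's inequality -/
lemma Av_bonami (r l : ℝ) (hr : r ^ 2 = 1 / 3) (B : Finset ι) :
    ∀ H : (ι → ℝ) → ℝ, Aff H → Dep B H →
      Av (l * r) B (fun t => H t ^ 4) ≤ (Av l B (fun t => H t ^ 2)) ^ 2 := by
  induction B using Finset.induction_on with
  | empty =>
    intro H _ hD
    have h1 : H (sg (l * r) ∅) = H 0 := hD _ _ (by simp)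
    have h2 : H (sg l ∅) = H 0 := hD _ _ (by simp)
    simp only [Av, Finset.powerset_empty, Finset.sum_singleton, Finset.card_empty, pow_zero,
      div_one, h1, h2]
    exact le_of_eq (by ring)
  | insert c B hc ih =>
    intro H hA hD
    have k1 : Av (l * r) (insert c B) (fun t => H t ^ 4)
        = Av (l * r) B (fun t => pA H c t ^ 4)
          + 2 * l ^ 2 * Av (l * r) B (fun t => pA H c t ^ 2 * pR H c t ^ 2)
          + l ^ 4 / 9 * Av (l * r) B (fun t => pR H c t ^ 4) := by
      rw [Av_insert _ hc]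
      have hr4 : r ^ 4 = 1 / 9 := by
        have : r ^ 4 = (r ^ 2) ^ 2 := by ring
        rw [this, hr]; norm_num
      have e : (fun t => (H (update t c (l * r)) ^ 4 + H (update t c (-(l * r))) ^ 4) / 2)
          = fun t => pA H c t ^ 4 + 2 * l ^ 2 * (pA H c t ^ 2 * pR H c t ^ 2)
            + l ^ 4 / 9 * pR H c t ^ 4 := by
        funext t
        rw [hA.eq c t (l * r), hA.eq c t (-(l * r))]
        have : ((pA H c t + l * r * pR H c t) ^ 4 + (pA H c t + -(l * r) * pR H c t) ^ 4) / 2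
            = pA H c t ^ 4 + 6 * l ^ 2 * r ^ 2 * (pA H c t ^ 2 * pR H c t ^ 2)
              + l ^ 4 * r ^ 4 * pR H c t ^ 4 := by ring
        rw [this, hr, hr4]
        ring
      rw [e, Av_add, Av_add, Av_mul, Av_mul]
    have k2 : Av l (insert c B) (fun t => H t ^ 2)
        = Av l B (fun t => pA H c t ^ 2) + l ^ 2 * Av l B (fun t => pR H c t ^ 2) := by
      rw [Av_insert l hc]
      have e : (fun t => (H (update t c l) ^ 2 + H (update t c (-l)) ^ 2) / 2)
          = fun t => pA H c t ^ 2 + l ^ 2 * pR H c t ^ 2 := by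
        funext t
        rw [hA.eq c t l, hA.eq c t (-l)]
        ring
      rw [e, Av_add, Av_mul]
    have iA := ih _ (hA.pA c) hD.pA
    have iR := ih _ (hA.pR c) hD.pR
    set α := Av l B (fun t => pA H c t ^ 2) with hα
    set β := Av l B (fun t => pR H c t ^ 2) with hβ
    have α0 : 0 ≤ α := Av_nonneg _ _ fun _ => sq_nonneg _
    have β0 : 0 ≤ β := Av_nonneg _ _ fun _ => sq_nonneg _
    set a := Av (l * r) B (fun t => pA H c t ^ 4) with ha
    set b := Av (l * r) B (fun t => pR H c t ^ 4) with hb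
    set x := Av (l * r) B (fun t => pA H c t ^ 2 * pR H c t ^ 2) with hx
    have b0 : 0 ≤ b := Av_nonneg _ _ fun _ => by positivity
    have cs : x ^ 2 ≤ a * b := by
      have := Av_cs (l * r) B (fun t => pA H c t ^ 2) (fun t => pR H c t ^ 2)
      have e1 : (fun t => (pA H c t ^ 2) ^ 2) = fun t => pA H c t ^ 4 := by funext t; ring
      have e2 : (fun t => (pR H c t ^ 2) ^ 2) = fun t => pR H c t ^ 4 := by funext t; ring
      rw [e1, e2] at this
      exact this
    have hxab : x ≤ α * β := by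
      have h1 : x ^ 2 ≤ (α * β) ^ 2 := by
        calc x ^ 2 ≤ a * b := cs
          _ ≤ α ^ 2 * β ^ 2 := mul_le_mul iA iR b0 (sq_nonneg α)
          _ = (α * β) ^ 2 := by ring
      exact le_of_sq_le_sq h1 (mul_nonneg α0 β0)
    rw [k1, k2]
    have h3 : 2 * l ^ 2 * x ≤ 2 * l ^ 2 * (α * β) :=
      mul_le_mul_of_nonneg_left hxab (by positivity)
    have h4 : l ^ 4 / 9 * b ≤ l ^ 4 * β ^ 2 := by
      have h5 : l ^ 4 / 9 * b ≤ l ^ 4 / 9 * β ^ 2 := mul_le_mul_of_nonneg_left iR (by positivity)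
      have h6 : 0 ≤ l ^ 4 * β ^ 2 := by positivity
      linarith
    calc a + 2 * l ^ 2 * x + l ^ 4 / 9 * b
        ≤ α ^ 2 + 2 * l ^ 2 * (α * β) + l ^ 4 * β ^ 2 := by linarith
      _ = (α + l ^ 2 * β) ^ 2 := by ring

end Pool.Agent.R815.Ck
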