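import Pool.Agent.R815.Ck.Paths

/-!
# Estimates for the simple random walk
-/

namespace Pool.Agent.R815.Ck

open Finset Function

/-- general one step formula -/
lemma E0_step' {n : ℕ} (F : Finset ℕ → ℤ → ℝ) (hF : ∀ s, Ad n fun A => F A s) :
    E0 (n + 1) (fun A => F A (st A n)) = E0 n fun A => (F A 1 + F A (-1)) / 2 := by
  rw [E0_succ]
  apply E0_congr
  intro A hA
  have h1 : F (insert n A) 1 = F A 1 := (hF 1).insert A
  rw [st_insert, st_of_sub hA, h1]
  ring

lemma Ad.const {α : Type} (k : ℕ) (a : α) : Ad k fun _ => a := fun _ _ _ => rfl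

/-- second moment of increments -/
lemma E0_sq {n m : ℕ} (h : m ≤ n) :
    E0 n (fun A => ((pos A n : ℝ) - pos A m) ^ 2) = (n : ℝ) - m := by
  induction n, h using Nat.le_induction with
  | base => simp [E0_const]
  | succ n hn ih =>
    have h1 : E0 (n + 1) (fun A => ((pos A (n + 1) : ℝ) - pos A m) ^ 2)
        = E0 (n + 1) (fun A => (fun A s => ((pos A n : ℝ) + (s : ℤ) - pos A m) ^ 2) A (st A n)) := by
      apply E0_congr
      intro A _
      rw [pos_succ]
      push_cast
      rfl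
    rw [h1, E0_step' (fun A s => ((pos A n : ℝ) + (s : ℤ) - pos A m) ^ 2)]
    · have h2 : (fun A => (((pos A n : ℝ) + ((1 : ℤ) : ℝ) - pos A m) ^ 2
          + ((pos A n : ℝ) + ((-1 : ℤ) : ℝ) - pos A m) ^ 2) / 2)
          = fun A => ((pos A n : ℝ) - pos A m) ^ 2 + 1 := by
        funext A; push_cast; ring
      rw [h2, E0_add, ih, E0_const]
      push_cast
      ring
    · intro s A A' hA
      have a1 : pos A n = pos A' n := pos_ad n A A' hA
      have a2 : pos A m = pos A' m := pos_ad m A A' fun j hj => hA j (by omega)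
      simp only
      rw [a1, a2]

lemma pos_zero (A : Finset ℕ) : pos A 0 = 0 := by simp [pos]

lemma E0_pos_sq (n : ℕ) : E0 n (fun A => (pos A n : ℝ) ^ 2) = n := by
  have := E0_sq (Nat.zero_le n)
  simpa [pos_zero] using this

/-- one step of Tanaka's formula -/
lemma tanaka_step {n m : ℕ} (h : m ≤ n) :
    E0 (n + 1) (fun A => |(pos A (n + 1) : ℝ) - pos A m|)
      = E0 n (fun A => |(pos A n : ℝ) - pos A m|)
        + E0 n (fun A => if pos A m = pos A n then (1 : ℝ) else 0) := by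
  have h1 : E0 (n + 1) (fun A => |(pos A (n + 1) : ℝ) - pos A m|)
      = E0 (n + 1) (fun A => (fun A s => |(pos A n : ℝ) + (s : ℤ) - pos A m|) A (st A n)) := by
    apply E0_congr
    intro A _
    rw [pos_succ]
    push_cast
    rfl
  rw [h1, E0_step' (fun A s => |(pos A n : ℝ) + (s : ℤ) - pos A m|), ← E0_add]
  · apply E0_congr
    intro A _
    by_cases he : pos A m = pos A n
    · rw [if_pos he, he]
      norm_num
    · rw [if_neg he, add_zero]
      rcases lt_or_gt_of_ne he with hlt | hgt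
      · have h2 : (1 : ℝ) ≤ (pos A n : ℝ) - pos A m := by
          have : pos A m + 1 ≤ pos A n := hlt
          have : (pos A m : ℝ) + 1 ≤ pos A n := by exact_mod_cast this
          linarith
        rw [abs_of_nonneg (by push_cast; linarith), abs_of_nonneg (by push_cast; linarith),
          abs_of_nonneg (by linarith)]
        push_cast
        ring
      · have h2 : (pos A n : ℝ) - pos A m ≤ -1 := by
          have : pos A n + 1 ≤ pos A m := hgt
          have : (pos A n : ℝ) + 1 ≤ pos A m := by exact_mod_cast this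
          linarith
        rw [abs_of_nonpos (by push_cast; linarith), abs_of_nonpos (by push_cast; linarith),
          abs_of_nonpos (by linarith)]
        push_cast
        ring
  · intro s A A' hA
    have a1 : pos A n = pos A' n := pos_ad n A A' hA
    have a2 : pos A m = pos A' m := pos_ad m A A' fun j hj => hA j (by omega)
    simp only
    rw [a1, a2]

lemma tanaka {n m : ℕ} (h : m ≤ n) :
    ∑ k ∈ Ico m n, E0 k (fun A => if pos A m = pos A k then (1 : ℝ) else 0)
      = E0 n (fun A => |(pos A n : ℝ) - pos A m|) := by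
  induction n, h using Nat.le_induction with
  | base => simp [E0_const]
  | succ n hn ih =>
    rw [Finset.sum_Ico_succ_top hn, ih, tanaka_step hn]

/-- expected number of visits -/
lemma sum_vis {N : ℕ} (hN : 1 ≤ N) :
    ∑ k ∈ range (N ^ 2), E0 k (fun A => (vis A k : ℝ)) ≤ (N : ℝ) ^ 2 * N := by
  have hN0 : (0 : ℝ) < N := by exact_mod_cast hN
  have h1 : ∀ k, E0 k (fun A => (vis A k : ℝ))
      = ∑ m ∈ range (k + 1), E0 k (fun A => if pos A m = pos A k then (1 : ℝ) else 0) := by
    intro k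
    rw [← E0_sum]
    apply E0_congr
    intro A _
    unfold vis
    rw [Finset.card_filter]
    push_cast
    rfl
  simp only [h1]
  rw [Finset.sum_comm' (t' := range (N ^ 2)) (s' := fun m => Ico m (N ^ 2))]
  · calc ∑ m ∈ range (N ^ 2), ∑ k ∈ Ico m (N ^ 2),
          E0 k (fun A => if pos A m = pos A k then (1 : ℝ) else 0)
        ≤ ∑ m ∈ range (N ^ 2), (N : ℝ) := by
          apply Finset.sum_le_sum
          intro m hm
          have hm' := (Finset.mem_range.mp hm).le
          rw [tanaka hm']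
          have h2 : ∀ A : Finset ℕ, |(pos A (N ^ 2) : ℝ) - pos A m|
              ≤ (1 / (2 * N)) * ((pos A (N ^ 2) : ℝ) - pos A m) ^ 2 + N / 2 := by
            intro A
            set d := (pos A (N ^ 2) : ℝ) - pos A m with hd
            have h3 : 0 ≤ (|d| - N) ^ 2 := sq_nonneg _
            have h4 : |d| ^ 2 = d ^ 2 := sq_abs d
            have h5 : (1 / (2 * (N : ℝ))) * d ^ 2 + N / 2 - |d|
                = (1 / (2 * (N : ℝ))) * (|d| - N) ^ 2 := by
              have : (|d| - N) ^ 2 = |d| ^ 2 - 2 * N * |d| + (N : ℝ) ^ 2 := by ring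
              rw [this, h4]
              field_simp
              ring
            have h6 : 0 ≤ (1 / (2 * (N : ℝ))) * (|d| - N) ^ 2 := by positivity
            linarith
          refine (E0_mono h2).trans ?_
          rw [E0_add, E0_mul, E0_sq hm', E0_const]
          push_cast
          have h7 : (0 : ℝ) ≤ m := Nat.cast_nonneg m
          have h8 : 1 / (2 * (N : ℝ)) * ((N : ℝ) ^ 2 - m) ≤ N / 2 := by
            have : 1 / (2 * (N : ℝ)) * ((N : ℝ) ^ 2 - m) = N / 2 - m / (2 * N) := by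
              field_simp
            rw [this]
            have : 0 ≤ (m : ℝ) / (2 * N) := by positivity
            linarith
          linarith
      _ = (N : ℝ) ^ 2 * N := by
          rw [Finset.sum_const, Finset.card_range, nsmul_eq_mul]
          push_cast
          ring
  · intro k m
    simp only [Finset.mem_range, Finset.mem_Ico]
    omega

/-- the box -/
noncomputable def box (N : ℕ) : Finset (ℤ × ℕ) := Icc (-(100 * N : ℤ)) (100 * N) ×ˢ range (100 * N + 1)

open Classical in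
/-- the walk is rarely outside of the box -/
lemma sum_out {N : ℕ} (hN : 1 ≤ N) :
    ∑ k ∈ range (N ^ 2), E0 k (fun A => if ck A k ∈ box N then (0 : ℝ) else 1)
      ≤ (N : ℝ) ^ 2 / 20000 + (N : ℝ) ^ 2 / 100 := by
  have hN0 : (0 : ℝ) < N := by exact_mod_cast hN
  have h1 : ∀ k A, (if ck A k ∈ box N then (0 : ℝ) else 1)
      ≤ (1 / (100 * (N : ℝ)) ^ 2) * (pos A k : ℝ) ^ 2 + (1 / (100 * (N : ℝ))) * (vis A k : ℝ) := by
    intro k A
    split_ifs with h
    · positivity
    · unfold box ck at h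
      rw [Finset.mem_product, Finset.mem_Icc, Finset.mem_range, not_and_or, ← abs_le] at h
      rcases h with h | h
      · have h2 : (100 * (N : ℝ)) ≤ |(pos A k : ℝ)| := by
          have h3 : (100 * N : ℤ) < |pos A k| := not_le.mp h
          have h4 : ((100 * N : ℤ) : ℝ) < ((|pos A k| : ℤ) : ℝ) := by exact_mod_cast h3
          push_cast at h4
          exact h4.le
        have h5 : (100 * (N : ℝ)) ^ 2 ≤ (pos A k : ℝ) ^ 2 := by
          rw [← sq_abs (pos A k : ℝ)]
          exact pow_le_pow_left₀ (by positivity) h2 2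
        have h6 : 1 ≤ (1 / (100 * (N : ℝ)) ^ 2) * (pos A k : ℝ) ^ 2 := by
          rw [one_div, inv_mul_eq_div, one_le_div (by positivity)]
          exact h5
        have h7 : 0 ≤ (1 / (100 * (N : ℝ))) * (vis A k : ℝ) := by positivity
        linarith
      · have h2 : (100 * (N : ℝ)) ≤ (vis A k : ℝ) := by
          have : 100 * N ≤ vis A k := by
            simp only at h
            omega
          exact_mod_cast this
        have h6 : 1 ≤ (1 / (100 * (N : ℝ))) * (vis A k : ℝ) := by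
          rw [one_div, inv_mul_eq_div, one_le_div (by positivity)]
          exact h2
        have h7 : 0 ≤ (1 / (100 * (N : ℝ)) ^ 2) * (pos A k : ℝ) ^ 2 := by positivity
        linarith
  calc ∑ k ∈ range (N ^ 2), E0 k (fun A => if ck A k ∈ box N then (0 : ℝ) else 1)
      ≤ ∑ k ∈ range (N ^ 2), ((1 / (100 * (N : ℝ)) ^ 2) * k
          + (1 / (100 * (N : ℝ))) * E0 k (fun A => (vis A k : ℝ))) := by
        apply Finset.sum_le_sum
        intro k _
        refine (E0_mono (h1 k)).trans ?_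
        rw [E0_add, E0_mul, E0_mul, E0_pos_sq]
    _ = (1 / (100 * (N : ℝ)) ^ 2) * ∑ k ∈ range (N ^ 2), (k : ℝ)
          + (1 / (100 * (N : ℝ))) * ∑ k ∈ range (N ^ 2), E0 k (fun A => (vis A k : ℝ)) := by
        rw [Finset.sum_add_distrib, ← Finset.mul_sum, ← Finset.mul_sum]
    _ ≤ (1 / (100 * (N : ℝ)) ^ 2) * ((N : ℝ) ^ 4 / 2)
          + (1 / (100 * (N : ℝ))) * ((N : ℝ) ^ 2 * N) := by
        apply add_le_add
        · apply mul_le_mul_of_nonneg_left _ (by positivity)
          have h2 : ∀ M : ℕ, ∑ k ∈ range M, (k : ℝ) ≤ (M : ℝ) ^ 2 / 2 := by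
            intro M
            induction M with
            | zero => simp
            | succ M ih =>
              rw [Finset.sum_range_succ]
              push_cast
              nlinarith
          have := h2 (N ^ 2)
          push_cast at this
          calc ∑ k ∈ range (N ^ 2), (k : ℝ) ≤ ((N : ℝ) ^ 2) ^ 2 / 2 := this
            _ = (N : ℝ) ^ 4 / 2 := by ring
        · exact mul_le_mul_of_nonneg_left (sum_vis hN) (by positivity)
    _ = (N : ℝ) ^ 2 / 20000 + (N : ℝ) ^ 2 / 100 := by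
        field_simp
        ring

lemma pow_small (s : ℝ) (hs : 0 ≤ s) (hs1 : s < 1) (k : ℕ) : (1 - s) ^ k * (1 + k * s) ≤ 1 := by
  have h1 : 1 + (k : ℝ) * s ≤ (1 + s) ^ k := one_add_mul_le_pow (by linarith) k
  have h2 : (0 : ℝ) ≤ (1 - s) ^ k := pow_nonneg (by linarith) k
  calc (1 - s) ^ k * (1 + k * s) ≤ (1 - s) ^ k * (1 + s) ^ k := mul_le_mul_of_nonneg_left h1 h2
    _ = (1 - s ^ 2) ^ k := by rw [← mul_pow]; congr 1; ring
    _ ≤ 1 := pow_le_one₀ (by nlinarith) (by nlinarith)

lemma E0_cos_pow (y : ℝ) (k : ℕ) : E0 k (fun A => Real.cos (y * pos A k)) = Real.cos y ^ k := by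
  have h := E0_cos y (Nat.zero_le k) (Ad.const 0 (1 : ℝ))
  simp only [one_mul, pos_zero, Int.cast_zero, mul_zero, Real.cos_zero, Nat.sub_zero,
    E0_const, mul_one] at h
  exact h

/-- facts about `y = 1/N` -/
lemma trig {N : ℕ} (hN : 2 ≤ N) :
    (1 / (2 * (N : ℝ)) ≤ Real.sin (1 / N)) ∧ (0 < Real.cos (1 / N)) ∧
    (1 / 2 ≤ Real.cos (1 / N) ^ (N ^ 2)) ∧
    (1 / (2 * (N : ℝ) ^ 2) ≤ 1 - Real.cos (2 * (1 / N))) ∧ (0 < Real.cos (2 * (1 / N))) := by
  have hN0 : (2 : ℝ) ≤ N := by exact_mod_cast hN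
  have hy0 : (0 : ℝ) < 1 / N := by positivity
  have hy1 : (1 : ℝ) / N ≤ 1 / 2 := one_div_le_one_div_of_le (by norm_num) hN0
  have hpi := Real.pi_gt_three
  have h1 : 1 / (2 * (N : ℝ)) ≤ Real.sin (1 / N) := by
    have h2 := Real.mul_le_sin hy0.le (by linarith)
    have h3 : (1 : ℝ) / 2 ≤ 2 / Real.pi := by
      rw [div_le_div_iff₀ (by norm_num) Real.pi_pos]
      have := Real.pi_le_four
      linarith
    calc 1 / (2 * (N : ℝ)) = 1 / 2 * (1 / N) := by field_simp
      _ ≤ 2 / Real.pi * (1 / N) := mul_le_mul_of_nonneg_right h3 hy0.le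
      _ ≤ _ := h2
  have h2 : 0 < Real.cos (1 / N) := Real.cos_pos_of_mem_Ioo ⟨by linarith, by linarith⟩
  have h5 : 0 < Real.cos (2 * (1 / N)) := Real.cos_pos_of_mem_Ioo ⟨by linarith, by linarith⟩
  refine ⟨h1, h2, ?_, ?_, h5⟩
  · have h3 : 1 - (1 / (N : ℝ)) ^ 2 / 2 ≤ Real.cos (1 / N) := Real.one_sub_sq_div_two_le_cos
    have h4 : (0 : ℝ) ≤ 1 - (1 / (N : ℝ)) ^ 2 / 2 := by nlinarith
    have h6 := one_add_mul_le_pow (a := -((1 / (N : ℝ)) ^ 2 / 2)) (by nlinarith) (N ^ 2)
    calc (1 : ℝ) / 2 = 1 + ((N ^ 2 : ℕ) : ℝ) * -((1 / (N : ℝ)) ^ 2 / 2) := by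
          push_cast
          field_simp
          ring
      _ ≤ (1 + -((1 / (N : ℝ)) ^ 2 / 2)) ^ (N ^ 2) := h6
      _ = (1 - (1 / (N : ℝ)) ^ 2 / 2) ^ (N ^ 2) := by ring_nf
      _ ≤ _ := pow_le_pow_left₀ h4 h3 _
  · rw [Real.cos_two_mul, Real.cos_sq']
    have h3 : (1 / (2 * (N : ℝ))) ^ 2 ≤ Real.sin (1 / N) ^ 2 :=
      pow_le_pow_left₀ (by positivity) h1 2
    have h4 : (1 / (2 * (N : ℝ))) ^ 2 = 1 / (4 * (N : ℝ) ^ 2) := by ring
    have h6 : 1 / (2 * (N : ℝ) ^ 2) = 2 * (1 / (4 * (N : ℝ) ^ 2)) := by ring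
    rw [h4] at h3
    linarith

/-- lower bound for the oscillation -/
lemma sum_sin {N : ℕ} (hN : 2 ≤ N) :
    ((N : ℝ) ^ 2 - 1) / 20 ≤ ∑ k ∈ range (N ^ 2),
      E0 k (fun A => Real.sin ((1 / (N : ℝ)) * pos A k) ^ 2) := by
  obtain ⟨_, _, _, t4, t5⟩ := trig hN
  have hN0 : (2 : ℝ) ≤ N := by exact_mod_cast hN
  have h1 : ∀ k, E0 k (fun A => Real.sin ((1 / (N : ℝ)) * pos A k) ^ 2)
      = (1 - Real.cos (2 * (1 / (N : ℝ))) ^ k) / 2 := by
    intro k
    rw [← E0_cos_pow]
    have : (fun A => Real.sin ((1 / (N : ℝ)) * pos A k) ^ 2)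
        = fun A => 1 / 2 - 1 / 2 * Real.cos (2 * (1 / (N : ℝ)) * pos A k) := by
      funext A
      have e1 : 2 * (1 / (N : ℝ)) * pos A k = 2 * ((1 / (N : ℝ)) * pos A k) := by ring
      rw [e1, Real.cos_two_mul, Real.cos_sq']
      ring
    rw [this, E0_sub, E0_const, E0_mul]
    ring
  simp only [h1]
  set q := Real.cos (2 * (1 / (N : ℝ))) with hq
  have hq1 : q ≤ 1 := Real.cos_le_one _
  have h2 : ∀ k, 0 ≤ (1 - q ^ k) / 2 := fun k => by
    have : q ^ k ≤ 1 := pow_le_one₀ t5.le hq1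
    linarith
  have h3 : ∀ k, N ^ 2 ≤ 2 * k → 1 / 10 ≤ (1 - q ^ k) / 2 := by
    intro k hk
    have hk' : (N : ℝ) ^ 2 ≤ 2 * k := by exact_mod_cast hk
    have h4 := pow_small (1 - q) (by linarith) (by linarith) k
    have h5 : (1 : ℝ) / 4 ≤ k * (1 - q) := by
      calc (1 : ℝ) / 4 = ((N : ℝ) ^ 2 / 2) * (1 / (2 * (N : ℝ) ^ 2)) := by field_simp; norm_num
        _ ≤ k * (1 - q) := mul_le_mul (by linarith) t4 (by positivity) (Nat.cast_nonneg k)
    have h6 : (1 : ℝ) - (1 - q) = q := by ring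
    rw [h6] at h4
    have h7 : 0 ≤ q ^ k := pow_nonneg t5.le k
    nlinarith
  calc ((N : ℝ) ^ 2 - 1) / 20 ≤ ∑ k ∈ (range (N ^ 2)).filter (fun k => N ^ 2 ≤ 2 * k), (1 / 10 : ℝ) := by
        rw [Finset.sum_const, nsmul_eq_mul]
        have h8 : (N ^ 2 - 1) ≤ 2 * ((range (N ^ 2)).filter (fun k => N ^ 2 ≤ 2 * k)).card := by
          have h9 : Ico ((N ^ 2 + 1) / 2) (N ^ 2)
              ⊆ (range (N ^ 2)).filter (fun k => N ^ 2 ≤ 2 * k) := by
            intro k hk
            rw [Finset.mem_Ico] at hk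
            rw [Finset.mem_filter, Finset.mem_range]
            omega
          have h10 := Finset.card_le_card h9
          rw [Nat.card_Ico] at h10
          omega
        have h11 : ((N : ℝ) ^ 2 - 1)
            ≤ 2 * (((range (N ^ 2)).filter (fun k => N ^ 2 ≤ 2 * k)).card : ℝ) := by
          have h12 : N ^ 2 ≤ 2 * ((range (N ^ 2)).filter (fun k => N ^ 2 ≤ 2 * k)).card + 1 := by
            omega
          have h13 : ((N ^ 2 : ℕ) : ℝ)
              ≤ ((2 * ((range (N ^ 2)).filter (fun k => N ^ 2 ≤ 2 * k)).card + 1 : ℕ) : ℝ) := by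
            exact_mod_cast h12
          push_cast at h13
          linarith
        linarith
    _ ≤ ∑ k ∈ (range (N ^ 2)).filter (fun k => N ^ 2 ≤ 2 * k), (1 - q ^ k) / 2 := by
        apply Finset.sum_le_sum
        intro k hk
        exact h3 k (Finset.mem_filter.mp hk).2
    _ ≤ ∑ k ∈ range (N ^ 2), (1 - q ^ k) / 2 :=
        Finset.sum_le_sum_of_subset_of_nonneg (Finset.filter_subset _ _) fun k _ _ => h2 k

end Pool.Agent.R815.Ck
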