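import Pool.Agent.R815.Ck.Est

/-!
# The main estimate: the non-Gaussianity functional has positive mean
-/

namespace Pool.Agent.R815.Ck

open Finset Function

lemma W_ad {n : ℕ} (t : ℤ × ℕ → ℝ) : Ad n fun A => W t n A := by
  intro A A' h
  unfold W
  apply Finset.prod_congr rfl
  intro k hk
  have hk' := Finset.mem_range.mp hk
  have h1 : st A k = st A' k := st_ad k A A' fun j hj => h j (by omega)
  have h2 : ck A k = ck A' k := ck_ad k A A' fun j hj => h j (by omega)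
  rw [h1, h2]

/-- total mass -/
lemma Q_one (n : ℕ) (t : ℤ × ℕ → ℝ) : Q n (fun _ => 1) t = 1 := by
  induction n with
  | zero => simp [Q, W]
  | succ n ih =>
    refine Eq.trans ?_ ih
    unfold Q
    rw [Finset.range_add_one, Finset.sum_powerset_insert Finset.notMem_range_self,
      ← Finset.sum_add_distrib]
    apply Finset.sum_congr rfl
    intro A hA
    have hA' := Finset.mem_powerset.mp hA
    rw [W_succ, W_succ, (W_ad t).insert, (ck_ad n).insert, st_insert, st_of_sub hA']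
    push_cast
    ring

lemma Q_abs {t : ℤ × ℕ → ℝ} (ht : ∀ c, |t c| ≤ 1) (n : ℕ) {g : ℤ → ℝ} (hg : ∀ z, |g z| ≤ 1) :
    |Q n g t| ≤ 1 := by
  rw [← Q_one n t]
  unfold Q
  refine (Finset.abs_sum_le_sum_abs _ _).trans ?_
  apply Finset.sum_le_sum
  intro A _
  rw [abs_mul, abs_of_nonneg (W_nonneg ht n A)]
  exact mul_le_mul_of_nonneg_left (hg _) (W_nonneg ht n A)

lemma E0_sin (y : ℝ) (n : ℕ) : E0 n (fun A => Real.sin (y * pos A n)) = 0 := by
  induction n with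
  | zero => simp [E0, pos_zero]
  | succ n ih =>
    have h1 : E0 (n + 1) (fun A => Real.sin (y * pos A (n + 1)))
        = E0 (n + 1) (fun A => (fun _ => (1 : ℝ)) A
          * (fun p s : ℤ => Real.sin (y * (p + s))) (pos A n) (st A n)) := by
      apply E0_congr
      intro A _
      rw [pos_succ]
      push_cast
      rw [one_mul]
    rw [h1, E0_step (Ad.const n (1 : ℝ)) (fun p s : ℤ => Real.sin (y * (p + s)))]
    have h2 : E0 n (fun A => (fun _ => (1 : ℝ)) A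
        * (((fun p s : ℤ => Real.sin (y * (p + s))) (pos A n) 1
        + (fun p s : ℤ => Real.sin (y * (p + s))) (pos A n) (-1)) / 2))
        = Real.cos y * E0 n (fun A => Real.sin (y * pos A n)) := by
      rw [← E0_mul]
      apply E0_congr
      intro A _
      have e1 : Real.sin (y * ((pos A n : ℝ) + ((1 : ℤ) : ℝ)))
          + Real.sin (y * ((pos A n : ℝ) + ((-1 : ℤ) : ℝ)))
          = 2 * (Real.sin (y * pos A n) * Real.cos y) := by
        have a1 : y * ((pos A n : ℝ) + ((1 : ℤ) : ℝ)) = y * pos A n + y := by push_cast; ring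
        have a2 : y * ((pos A n : ℝ) + ((-1 : ℤ) : ℝ)) = y * pos A n - y := by push_cast; ring
        rw [a1, a2, Real.sin_add, Real.sin_sub]
        ring
      simp only
      rw [e1]
      ring
    rw [h2, ih, mul_zero]

/-- the fourth moment of the sine part -/
lemma Av_sin4 {ρ : ℝ} (h0 : 0 ≤ ρ) (h1 : 3 * ρ ^ 2 ≤ 1) (y : ℝ) (n : ℕ) {B : Finset (ℤ × ℕ)}
    (hB : Bn n ⊆ B) :
    Av ρ B (fun t => Q n (fun z => Real.sin (y * z)) t ^ 4) ≤ 9 * ρ ^ 4 := by
  set S := Q n (fun z => Real.sin (y * z)) with hS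
  have hA : Aff S := Q_aff n _
  have hD : Dep B S := Q_dep _ hB
  have hS0 : S 0 = 0 := by rw [hS, Q_zero]; exact E0_sin y n
  have h3 : Real.sqrt 3 ^ 2 = 3 := Real.sq_sqrt (by norm_num)
  have h30 : 0 < Real.sqrt 3 := Real.sqrt_pos.mpr (by norm_num)
  have hr : (1 / Real.sqrt 3) ^ 2 = 1 / 3 := by rw [div_pow, one_pow, h3]
  have hl : Real.sqrt 3 * ρ * (1 / Real.sqrt 3) = ρ := by field_simp
  have hb := Av_bonami (1 / Real.sqrt 3) (Real.sqrt 3 * ρ) hr B S hA hD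
  rw [hl] at hb
  have hl0 : 0 ≤ Real.sqrt 3 * ρ := by positivity
  have hl2 : (Real.sqrt 3 * ρ) ^ 2 = 3 * ρ ^ 2 := by rw [mul_pow, h3]
  have hl1 : Real.sqrt 3 * ρ ≤ 1 := by
    by_contra h
    push Not at h
    nlinarith
  obtain ⟨hv1, hv2⟩ := Av_var hl0 hl1 B S hA hD
  rw [hS0, hl2] at hv1
  have hm : Av 1 B (fun t => S t ^ 2) ≤ 1 := by
    refine le_trans (Av_mono 1 B (G := fun _ => 1) ?_) (le_of_eq (Av_const 1 B 1))
    intro A
    have h4 : |S (sg 1 A)| ≤ 1 := by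
      apply Q_abs
      · intro c
        unfold sg
        split_ifs <;> simp
      · intro z
        exact Real.abs_sin_le_one _
    rw [← sq_abs]
    exact pow_le_one₀ (abs_nonneg _) h4
  have hn : 0 ≤ Av (Real.sqrt 3 * ρ) B (fun t => S t ^ 2) := Av_nonneg _ _ fun t => sq_nonneg _
  have hle : Av (Real.sqrt 3 * ρ) B (fun t => S t ^ 2) ≤ 3 * ρ ^ 2 := by
    have : 0 ≤ 3 * ρ ^ 2 := by positivity
    nlinarith
  calc Av ρ B (fun t => S t ^ 4) ≤ (Av (Real.sqrt 3 * ρ) B (fun t => S t ^ 2)) ^ 2 := hb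
    _ ≤ (3 * ρ ^ 2) ^ 2 := pow_le_pow_left₀ hn hle 2
    _ = 9 * ρ ^ 4 := by ring

open Classical in
/-- the sum of the first order coefficients -/
lemma T_eq (N n : ℕ) (y : ℝ) :
    ∑ c ∈ box N, -Real.sin (y * c.1) * pR (Q n fun z => Real.cos (y * z)) c 0
      = ∑ k ∈ range n, Real.cos y ^ (n - k - 1) * (Real.sin y
        * E0 k (fun A => if ck A k ∈ box N then Real.sin (y * pos A k) ^ 2 else 0)) := by
  have h1 : ∀ c, -Real.sin (y * c.1) * pR (Q n fun z => Real.cos (y * z)) c 0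
      = E0 n (fun A => ∑ k ∈ range n, (if ck A k = c then
        (st A k : ℝ) * -Real.sin (y * pos A k) * Real.cos (y * pos A n) else 0)) := by
    intro c
    rw [pR_Q, ← E0_mul]
    apply E0_congr
    intro A _
    rw [Finset.sum_mul, Finset.mul_sum]
    apply Finset.sum_congr rfl
    intro k _
    by_cases hc : ck A k = c
    · rw [if_pos hc, if_pos hc]
      have : c.1 = pos A k := by rw [← hc]; rfl
      rw [this]
      ring
    · rw [if_neg hc, if_neg hc]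
      ring
  simp only [h1]
  rw [← E0_sum]
  have h2 : (fun A => ∑ c ∈ box N, ∑ k ∈ range n, (if ck A k = c then
        (st A k : ℝ) * -Real.sin (y * pos A k) * Real.cos (y * pos A n) else 0))
      = fun A => ∑ k ∈ range n, (st A k : ℝ)
        * (if ck A k ∈ box N then -Real.sin (y * pos A k) else 0) * Real.cos (y * pos A n) := by
    funext A
    rw [Finset.sum_comm]
    apply Finset.sum_congr rfl
    intro k _
    rw [Finset.sum_ite_eq]
    split_ifs <;> ring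
  rw [h2, E0_sum]
  apply Finset.sum_congr rfl
  intro k hk
  have hk' := Finset.mem_range.mp hk
  rw [E0_step_cos y hk' (Ψ := fun A => if ck A k ∈ box N then -Real.sin (y * pos A k) else 0)]
  · congr 1
    rw [neg_mul, ← mul_neg]
    congr 1
    rw [← neg_one_mul, ← E0_mul]
    apply E0_congr
    intro A _
    split_ifs <;> ring
  · intro A A' hA
    have a1 : pos A k = pos A' k := pos_ad k A A' hA
    have a2 : ck A k = ck A' k := ck_ad k A A' hA
    simp only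
    rw [a1, a2]

lemma T_lower {N : ℕ} (hN : 10 ≤ N) :
    (N : ℝ) / 104 ≤ ∑ c ∈ box N, -Real.sin (1 / (N : ℝ) * c.1)
      * pR (Q (N ^ 2) fun z => Real.cos (1 / (N : ℝ) * z)) c 0 := by
  classical
  rw [T_eq]
  have hN2 : 2 ≤ N := by omega
  have hN0 : (10 : ℝ) ≤ N := by exact_mod_cast hN
  obtain ⟨t1, t2, t3, _, _⟩ := trig hN2
  have hs := sum_sin hN2
  have ho := sum_out (N := N) (by omega)
  set y := 1 / (N : ℝ) with hy
  have hsin0 : 0 ≤ Real.sin y := le_trans (by positivity) t1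
  have hE : ∀ k, 0 ≤ E0 k (fun A => if ck A k ∈ box N then Real.sin (y * pos A k) ^ 2 else 0) := by
    intro k
    apply E0_nonneg
    intro A
    split_ifs
    · positivity
    · exact le_refl 0
  have h1 : ∀ k ∈ range (N ^ 2), (1 / 2) * (Real.sin y
        * E0 k (fun A => if ck A k ∈ box N then Real.sin (y * pos A k) ^ 2 else 0))
      ≤ Real.cos y ^ (N ^ 2 - k - 1) * (Real.sin y
        * E0 k (fun A => if ck A k ∈ box N then Real.sin (y * pos A k) ^ 2 else 0)) := by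
    intro k hk
    apply mul_le_mul_of_nonneg_right _ (mul_nonneg hsin0 (hE k))
    refine t3.trans ?_
    exact pow_le_pow_of_le_one t2.le (Real.cos_le_one _) (by omega)
  refine le_trans ?_ (Finset.sum_le_sum h1)
  rw [← Finset.mul_sum, ← Finset.mul_sum]
  have h2 : ((N : ℝ) ^ 2 - 1) / 20 - ((N : ℝ) ^ 2 / 20000 + (N : ℝ) ^ 2 / 100)
      ≤ ∑ k ∈ range (N ^ 2),
        E0 k (fun A => if ck A k ∈ box N then Real.sin (y * pos A k) ^ 2 else 0) := by
    have h3 : ∑ k ∈ range (N ^ 2), E0 k (fun A => Real.sin (y * pos A k) ^ 2)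
        ≤ ∑ k ∈ range (N ^ 2),
          E0 k (fun A => if ck A k ∈ box N then Real.sin (y * pos A k) ^ 2 else 0)
        + ∑ k ∈ range (N ^ 2), E0 k (fun A => if ck A k ∈ box N then (0 : ℝ) else 1) := by
      rw [← Finset.sum_add_distrib]
      apply Finset.sum_le_sum
      intro k _
      rw [← E0_add]
      apply E0_mono
      intro A
      split_ifs
      · simp
      · have := Real.sin_sq_le_one (y * pos A k)
        linarith
    linarith
  have h4 : 3 / 78 * (N : ℝ) ^ 2 ≤ ((N : ℝ) ^ 2 - 1) / 20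
      - ((N : ℝ) ^ 2 / 20000 + (N : ℝ) ^ 2 / 100) := by nlinarith
  calc (N : ℝ) / 104 = 1 / 2 * (1 / (2 * N) * (3 / 78 * (N : ℝ) ^ 2)) := by
        field_simp
        norm_num
    _ ≤ 1 / 2 * (Real.sin y * ∑ k ∈ range (N ^ 2),
        E0 k (fun A => if ck A k ∈ box N then Real.sin (y * pos A k) ^ 2 else 0)) := by
      apply mul_le_mul_of_nonneg_left _ (by norm_num)
      exact mul_le_mul t1 (h4.trans h2) (by positivity) hsin0

/-- the linear functional -/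
noncomputable def Lf (N : ℕ) (w : ℤ × ℕ → ℝ) (t : ℤ × ℕ → ℝ) : ℝ := ∑ c ∈ box N, w c * t c

lemma Lf_aff (N : ℕ) (w : ℤ × ℕ → ℝ) : Aff (Lf N w) := by
  intro c t x
  unfold Lf
  rw [← Finset.sum_sub_distrib, Finset.mul_sum, ← Finset.sum_add_distrib]
  apply Finset.sum_congr rfl
  intro d _
  by_cases h : d = c
  · subst h; simp; ring
  · simp [h]

lemma Lf_dep (N : ℕ) (w : ℤ × ℕ → ℝ) {B : Finset (ℤ × ℕ)} (hB : box N ⊆ B) : Dep B (Lf N w) := by
  intro t t' h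
  unfold Lf
  apply Finset.sum_congr rfl
  intro d hd
  rw [h d (hB hd)]

lemma Lf_zero (N : ℕ) (w : ℤ × ℕ → ℝ) : Lf N w 0 = 0 := by simp [Lf]

lemma pR_Lf (N : ℕ) (w : ℤ × ℕ → ℝ) {c : ℤ × ℕ} (hc : c ∈ box N) : pR (Lf N w) c 0 = w c := by
  unfold pR
  rw [update_zero_zero, Lf_zero, sub_zero]
  unfold Lf
  rw [Finset.sum_eq_single c]
  · simp
  · intro d _ hd
    simp [hd]
  · intro h
    exact absurd hc h

lemma Av_sum (r : ℝ) (B : Finset (ℤ × ℕ)) {κ : Type} (s : Finset κ)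
    (H : κ → (ℤ × ℕ → ℝ) → ℝ) :
    Av r B (fun t => ∑ i ∈ s, H i t) = ∑ i ∈ s, Av r B (H i) := by
  unfold Av
  rw [Finset.sum_comm, Finset.sum_div]

/-- correlation with the linear functional -/
lemma Av_mul_Lf (ρ : ℝ) (N : ℕ) (w : ℤ × ℕ → ℝ) {B : Finset (ℤ × ℕ)} (hB : box N ⊆ B)
    {H : (ℤ × ℕ → ℝ) → ℝ} (hA : Aff H) (hD : Dep B H) :
    Av ρ B (fun t => H t * Lf N w t) = ρ ^ 2 * ∑ c ∈ box N, w c * pR H c 0 := by
  have h1 : (fun t => H t * Lf N w t) = fun t => ∑ c ∈ box N, w c * (H t * t c) := by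
    funext t
    unfold Lf
    rw [Finset.mul_sum]
    apply Finset.sum_congr rfl
    intro c _
    ring
  rw [h1, Av_sum, Finset.mul_sum]
  apply Finset.sum_congr rfl
  intro c hc
  rw [Av_mul, Av_cov ρ (hB hc) hA hD]
  ring

lemma card_box (N : ℕ) : ((box N).card : ℝ) = (200 * N + 1) * (100 * N + 1) := by
  unfold box
  rw [Finset.card_product, Int.card_Icc, Finset.card_range]
  have h : ((100 * N : ℤ) + 1 - -(100 * N : ℤ)).toNat = 200 * N + 1 := by omega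
  rw [h]
  push_cast
  ring

/-- lower bound for the variance of the cosine part -/
lemma var_lower {N : ℕ} (hN : 10 ≤ N) {ρ : ℝ} (h0 : 0 < ρ) {B : Finset (ℤ × ℕ)}
    (hB : Bn (N ^ 2) ⊆ B) (hB' : box N ⊆ B) :
    ρ ^ 2 / 220000000 ≤
      Av ρ B (fun t => (Q (N ^ 2) (fun z => Real.cos (1 / (N : ℝ) * z)) t
        - Q (N ^ 2) (fun z => Real.cos (1 / (N : ℝ) * z)) 0) ^ 2) := by
  set F := Q (N ^ 2) (fun z => Real.cos (1 / (N : ℝ) * z)) with hF
  set w : ℤ × ℕ → ℝ := fun c => -Real.sin (1 / (N : ℝ) * c.1) with hw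
  have hA : Aff F := Q_aff _ _
  have hD : Dep B F := Q_dep _ hB
  have hN0 : (10 : ℝ) ≤ N := by exact_mod_cast hN
  have hT := T_lower hN
  rw [← hF] at hT
  set T := ∑ c ∈ box N, -Real.sin (1 / (N : ℝ) * c.1) * pR F c 0 with hTd
  have h1 : Av ρ B (fun t => F t * Lf N w t) = ρ ^ 2 * T := Av_mul_Lf ρ N w hB' hA hD
  have h2 : Av ρ B (fun t => (F t - F 0) * Lf N w t) = ρ ^ 2 * T := by
    have e : (fun t => (F t - F 0) * Lf N w t)
        = fun t => F t * Lf N w t - F 0 * Lf N w t := by funext t; ring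
    rw [e, Av_sub, h1, Av_mul, Av_mean ρ B _ (Lf_aff N w) (Lf_dep N w hB'), Lf_zero]
    ring
  have h3 : Av ρ B (fun t => Lf N w t ^ 2) ≤ ρ ^ 2 * ((200 * N + 1) * (100 * N + 1)) := by
    have e : (fun t => Lf N w t ^ 2) = fun t => Lf N w t * Lf N w t := by funext t; ring
    rw [e, Av_mul_Lf ρ N w hB' (Lf_aff N w) (Lf_dep N w hB'), ← card_box]
    apply mul_le_mul_of_nonneg_left _ (by positivity)
    rw [← nsmul_one, ← Finset.sum_const]
    apply Finset.sum_le_sum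
    intro c hc
    rw [pR_Lf N w hc, hw]
    have := Real.sin_sq_le_one (1 / (N : ℝ) * c.1)
    simp only
    nlinarith
  have h4 := Av_cs ρ B (fun t => F t - F 0) (Lf N w)
  rw [h2] at h4
  set V := Av ρ B (fun t => (F t - F 0) ^ 2) with hV
  have hV0 : 0 ≤ V := Av_nonneg _ _ fun t => sq_nonneg _
  have h5 : (ρ ^ 2 * T) ^ 2 ≤ V * (ρ ^ 2 * ((200 * N + 1) * (100 * N + 1))) :=
    h4.trans (mul_le_mul_of_nonneg_left h3 hV0)
  have h6 : (ρ ^ 2 * (N / 104)) ^ 2 ≤ (ρ ^ 2 * T) ^ 2 := by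
    apply pow_le_pow_left₀ (by positivity)
    exact mul_le_mul_of_nonneg_left hT (by positivity)
  have h7 : (ρ ^ 2 * ((200 * (N : ℝ) + 1) * (100 * N + 1))) ≤ ρ ^ 2 * (20301 * (N : ℝ) ^ 2) := by
    apply mul_le_mul_of_nonneg_left _ (by positivity)
    nlinarith
  have h8 : (ρ ^ 2 * ((N : ℝ) / 104)) ^ 2 ≤ V * (ρ ^ 2 * (20301 * (N : ℝ) ^ 2)) :=
    (h6.trans h5).trans (mul_le_mul_of_nonneg_left h7 hV0)
  have hp : 0 < ρ ^ 2 * (N : ℝ) ^ 2 := by positivity
  have h9 : ρ ^ 2 / 10816 * (ρ ^ 2 * (N : ℝ) ^ 2) ≤ V * 20301 * (ρ ^ 2 * (N : ℝ) ^ 2) := by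
    calc ρ ^ 2 / 10816 * (ρ ^ 2 * (N : ℝ) ^ 2) = (ρ ^ 2 * ((N : ℝ) / 104)) ^ 2 := by ring
      _ ≤ _ := h8
      _ = _ := by ring
  have h10 := le_of_mul_le_mul_right h9 hp
  have h11 : 0 < ρ ^ 2 := by positivity
  linarith

/-- the non-Gaussianity functional -/
noncomputable def Ph (n : ℕ) (y : ℝ) (t : ℤ × ℕ → ℝ) : ℝ :=
  Q n (fun z => Real.cos (y * z)) t ^ 4 - Q n (fun z => Real.sin (y * z)) t ^ 4
    - Q n (fun z => Real.cos (2 * y * z)) t

lemma main_lower {N : ℕ} (hN : 10 ≤ N) {ρ : ℝ} (h0 : 0 < ρ) (h1 : ρ ≤ 1 / 1000000)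
    {B : Finset (ℤ × ℕ)} (hB : Bn (N ^ 2) ⊆ B) (hB' : box N ⊆ B) :
    ρ ^ 2 / 500000000 ≤ Av ρ B (Ph (N ^ 2) (1 / (N : ℝ))) := by
  have hN2 : 2 ≤ N := by omega
  obtain ⟨_, t2, t3, _, t5⟩ := trig hN2
  have hV := var_lower hN h0 hB hB'
  have hS := Av_sin4 h0.le (by nlinarith) (1 / (N : ℝ)) (N ^ 2) hB
  set F := Q (N ^ 2) (fun z => Real.cos (1 / (N : ℝ) * z)) with hF
  set S := Q (N ^ 2) (fun z => Real.sin (1 / (N : ℝ) * z)) with hSd
  have hA : Aff F := Q_aff _ _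
  have hD : Dep B F := Q_dep _ hB
  have hF0 : F 0 = Real.cos (1 / (N : ℝ)) ^ (N ^ 2) := by rw [hF, Q_zero]; exact E0_cos_pow _ _
  have hC2 : Av ρ B (Q (N ^ 2) (fun z => Real.cos (2 * (1 / (N : ℝ)) * z)))
      = Real.cos (2 * (1 / (N : ℝ))) ^ (N ^ 2) := by
    rw [Av_mean ρ B _ (Q_aff _ _) (Q_dep _ hB), Q_zero]
    exact E0_cos_pow _ _
  have hmean : Av ρ B F = F 0 := Av_mean ρ B F hA hD
  set V := Av ρ B (fun t => (F t - F 0) ^ 2) with hVd
  have hsq : Av ρ B (fun t => F t ^ 2) = F 0 ^ 2 + V := by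
    have e : (fun t => F t ^ 2) = fun t => (F t - F 0) ^ 2 + (2 * F 0 * F t - F 0 ^ 2) := by
      funext t; ring
    rw [e, Av_add, Av_sub, Av_mul, hmean, Av_const, ← hVd]
    ring
  have h4 : (F 0 ^ 2 + V) ^ 2 ≤ Av ρ B (fun t => F t ^ 4) := by
    have h5 := Av_cs ρ B (fun t => F t ^ 2) (fun _ => 1)
    simp only [mul_one, one_pow, Av_const] at h5
    rw [hsq] at h5
    have e : (fun t => (F t ^ 2) ^ 2) = fun t => F t ^ 4 := by funext t; ring
    rw [e] at h5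
    exact h5
  have h5 : Av ρ B (Ph (N ^ 2) (1 / (N : ℝ)))
      = Av ρ B (fun t => F t ^ 4) - Av ρ B (fun t => S t ^ 4)
        - Real.cos (2 * (1 / (N : ℝ))) ^ (N ^ 2) := by
    rw [← hC2, ← Av_sub, ← Av_sub]
    rfl
  have h6 : Real.cos (2 * (1 / (N : ℝ))) ^ (N ^ 2) ≤ F 0 ^ 4 := by
    rw [hF0, ← pow_mul, mul_comm (N ^ 2) 4, pow_mul]
    apply pow_le_pow_left₀ t5.le
    rw [Real.cos_two_mul]
    nlinarith [sq_nonneg (Real.cos (1 / (N : ℝ)) ^ 2 - 1)]
  have h7 : (1 : ℝ) / 4 ≤ F 0 ^ 2 := by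
    have : (1 : ℝ) / 2 ≤ F 0 := by rw [hF0]; exact t3
    nlinarith
  have hρ2 : 0 < ρ ^ 2 := by positivity
  have hV0 : 0 ≤ V := le_trans (by positivity) hV
  have h8 : F 0 ^ 4 + 1 / 2 * V ≤ (F 0 ^ 2 + V) ^ 2 := by
    nlinarith [mul_le_mul_of_nonneg_right h7 hV0, sq_nonneg V]
  have h9 : 9 * ρ ^ 4 ≤ ρ ^ 2 / 100000000000 := by
    have : ρ ^ 2 ≤ 1 / 1000000000000 := by
      calc ρ ^ 2 ≤ (1 / 1000000) ^ 2 := pow_le_pow_left₀ h0.le h1 2
        _ = _ := by norm_num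
    nlinarith
  rw [h5]
  linarith

end Pool.Agent.R815.Ck
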