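import Pool.Agent.R815.Ck.Avg

/-!
# Paths, cookies and path weights
-/

namespace Pool.Agent.R815.Ck

open Finset Function

/-- step at time `j`: `+1` if `j ∈ A`, else `-1` -/
def st (A : Finset ℕ) (j : ℕ) : ℤ := if j ∈ A then 1 else -1

/-- position at time `k` -/
def pos (A : Finset ℕ) (k : ℕ) : ℤ := ∑ j ∈ range k, st A j

/-- number of visits to the position `pos A k` up to time `k` -/
def vis (A : Finset ℕ) (k : ℕ) : ℕ := ((range (k + 1)).filter fun m => pos A m = pos A k).card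

/-- the cookie used at time `k` -/
def ck (A : Finset ℕ) (k : ℕ) : ℤ × ℕ := (pos A k, vis A k)

/-- weight of a path -/
noncomputable def W (t : ℤ × ℕ → ℝ) (n : ℕ) (A : Finset ℕ) : ℝ :=
  ∏ k ∈ range n, (1 + (st A k : ℝ) * t (ck A k)) / 2

/-- quenched expectation -/
noncomputable def Q (n : ℕ) (g : ℤ → ℝ) (t : ℤ × ℕ → ℝ) : ℝ :=
  ∑ A ∈ (range n).powerset, W t n A * g (pos A n)

/-- expectation for the simple random walk -/
noncomputable def E0 (n : ℕ) (Ψ : Finset ℕ → ℝ) : ℝ := (∑ A ∈ (range n).powerset, Ψ A) / 2 ^ n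

/-- cookies which can be used before time `n` -/
def Bn (n : ℕ) : Finset (ℤ × ℕ) := ((range n).powerset ×ˢ range n).image fun p => ck p.1 p.2

lemma ck_ne (A : Finset ℕ) {j k : ℕ} (h : j < k) : ck A j ≠ ck A k := by
  intro heq
  have h1 : pos A j = pos A k := congrArg Prod.fst heq
  have h2 : vis A j = vis A k := congrArg Prod.snd heq
  have h3 : vis A j < vis A k := by
    unfold vis
    apply Finset.card_lt_card
    rw [Finset.ssubset_iff_of_subset]
    · refine ⟨k, by simp, ?_⟩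
      simp only [Finset.mem_filter, Finset.mem_range, not_and]
      intro h4
      omega
    · intro m hm
      simp only [Finset.mem_filter, Finset.mem_range] at hm ⊢
      refine ⟨by omega, ?_⟩
      rw [hm.2, h1]
  omega

lemma W_succ (t : ℤ × ℕ → ℝ) (n : ℕ) (A : Finset ℕ) :
    W t (n + 1) A = W t n A * ((1 + (st A n : ℝ) * t (ck A n)) / 2) := by
  unfold W; rw [Finset.prod_range_succ]

lemma W_congr {t t' : ℤ × ℕ → ℝ} {n : ℕ} {A : Finset ℕ} (h : ∀ k < n, t (ck A k) = t' (ck A k)) :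
    W t n A = W t' n A := by
  unfold W
  apply Finset.prod_congr rfl
  intro k hk
  rw [h k (Finset.mem_range.mp hk)]

lemma W_aff (n : ℕ) (A : Finset ℕ) : Aff fun t => W t n A := by
  induction n with
  | zero =>
    intro c t x
    simp [W]
  | succ n ih =>
    intro c t x
    simp only [W_succ]
    by_cases hc : c = ck A n
    · subst hc
      have h1 : ∀ x, W (update t (ck A n) x) n A = W t n A := by
        intro x
        apply W_congr
        intro k hk
        rw [update_of_ne (ck_ne A hk)]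
      simp only [h1, update_self]
      ring
    · have h2 : ∀ x, (update t c x) (ck A n) = t (ck A n) := fun x =>
        update_of_ne (Ne.symm hc) _ _
      have h3 := ih c t x
      simp only at h3
      rw [h2, h2, h2, h3]
      ring

lemma W_dep {n : ℕ} {A : Finset ℕ} (hA : A ⊆ range n) {B : Finset (ℤ × ℕ)} (hB : Bn n ⊆ B) :
    Dep B fun t => W t n A := by
  intro t t' h
  apply W_congr
  intro k hk
  apply h
  apply hB
  unfold Bn
  rw [Finset.mem_image]
  exact ⟨(A, k), Finset.mem_product.mpr ⟨Finset.mem_powerset.mpr hA, Finset.mem_range.mpr hk⟩, rfl⟩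

lemma Q_aff (n : ℕ) (g : ℤ → ℝ) : Aff (Q n g) := by
  intro c t x
  unfold Q
  rw [← Finset.sum_sub_distrib, Finset.mul_sum, ← Finset.sum_add_distrib]
  apply Finset.sum_congr rfl
  intro A _
  have h := W_aff n A c t x
  simp only at h
  rw [h]
  ring

lemma Q_dep {n : ℕ} (g : ℤ → ℝ) {B : Finset (ℤ × ℕ)} (hB : Bn n ⊆ B) : Dep B (Q n g) := by
  intro t t' h
  unfold Q
  apply Finset.sum_congr rfl
  intro A hA
  have := W_dep (Finset.mem_powerset.mp hA) hB t t' h
  simp only at this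
  rw [this]

lemma W_zero (n : ℕ) (A : Finset ℕ) : W 0 n A = 1 / 2 ^ n := by
  unfold W
  simp

lemma Q_zero (n : ℕ) (g : ℤ → ℝ) : Q n g 0 = E0 n fun A => g (pos A n) := by
  unfold Q E0
  rw [Finset.sum_div]
  apply Finset.sum_congr rfl
  intro A _
  rw [W_zero]
  ring

/-- path weight with one active cookie -/
lemma W_one (n : ℕ) (A : Finset ℕ) (c : ℤ × ℕ) :
    W (update 0 c 1) n A = (1 + ∑ k ∈ range n, if ck A k = c then (st A k : ℝ) else 0) / 2 ^ n := by
  induction n with
  | zero => simp [W]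
  | succ n ih =>
    rw [W_succ, ih, Finset.sum_range_succ]
    by_cases hc : ck A n = c
    · have h1 : ∑ k ∈ range n, (if ck A k = c then (st A k : ℝ) else 0) = 0 := by
        apply Finset.sum_eq_zero
        intro k hk
        rw [if_neg]
        rw [← hc]
        exact ck_ne A (Finset.mem_range.mp hk)
      rw [h1, if_pos hc, hc, update_self]
      rw [pow_succ]
      ring
    · rw [if_neg hc, update_of_ne hc, pow_succ]
      simp only [Pi.zero_apply, mul_zero, add_zero]
      ring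

lemma pR_Q (n : ℕ) (g : ℤ → ℝ) (c : ℤ × ℕ) :
    pR (Q n g) c 0 = E0 n fun A => (∑ k ∈ range n, if ck A k = c then (st A k : ℝ) else 0)
      * g (pos A n) := by
  unfold pR
  rw [update_zero_zero]
  unfold Q E0
  rw [← Finset.sum_sub_distrib, Finset.sum_div]
  apply Finset.sum_congr rfl
  intro A _
  rw [W_one, W_zero]
  ring

/-- weights are nonnegative for parameters in `[-1,1]` -/
lemma W_nonneg {t : ℤ × ℕ → ℝ} (ht : ∀ c, |t c| ≤ 1) (n : ℕ) (A : Finset ℕ) : 0 ≤ W t n A := by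
  unfold W
  apply Finset.prod_nonneg
  intro k _
  have h1 := abs_le.mp (ht (ck A k))
  have h2 : (st A k : ℝ) = 1 ∨ (st A k : ℝ) = -1 := by
    unfold st; split_ifs <;> simp
  rcases h2 with h | h <;> rw [h] <;> linarith [h1.1, h1.2]

/-! ## averages over paths -/

lemma E0_succ (n : ℕ) (Ψ : Finset ℕ → ℝ) :
    E0 (n + 1) Ψ = E0 n fun A => (Ψ A + Ψ (insert n A)) / 2 := by
  unfold E0
  rw [Finset.range_add_one, Finset.sum_powerset_insert Finset.notMem_range_self,
    ← Finset.sum_add_distrib, pow_succ, Finset.sum_div, Finset.sum_div]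
  apply Finset.sum_congr rfl
  intro A _
  field_simp

lemma E0_congr {n : ℕ} {Ψ Ψ' : Finset ℕ → ℝ} (h : ∀ A ⊆ range n, Ψ A = Ψ' A) :
    E0 n Ψ = E0 n Ψ' := by
  unfold E0
  congr 1
  exact Finset.sum_congr rfl fun A hA => h A (Finset.mem_powerset.mp hA)

lemma E0_mono {n : ℕ} {Ψ Ψ' : Finset ℕ → ℝ} (h : ∀ A, Ψ A ≤ Ψ' A) : E0 n Ψ ≤ E0 n Ψ' := by
  unfold E0
  exact div_le_div_of_nonneg_right (Finset.sum_le_sum fun A _ => h A) (by positivity)

lemma E0_add (n : ℕ) (Ψ Ψ' : Finset ℕ → ℝ) : E0 n (fun A => Ψ A + Ψ' A) = E0 n Ψ + E0 n Ψ' := by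
  unfold E0; rw [Finset.sum_add_distrib, add_div]

lemma E0_sub (n : ℕ) (Ψ Ψ' : Finset ℕ → ℝ) : E0 n (fun A => Ψ A - Ψ' A) = E0 n Ψ - E0 n Ψ' := by
  unfold E0; rw [Finset.sum_sub_distrib, sub_div]

lemma E0_mul (n : ℕ) (a : ℝ) (Ψ : Finset ℕ → ℝ) : E0 n (fun A => a * Ψ A) = a * E0 n Ψ := by
  unfold E0; rw [← Finset.mul_sum, mul_div_assoc]

lemma E0_sum (n : ℕ) {κ : Type} (s : Finset κ) (Ψ : κ → Finset ℕ → ℝ) :
    E0 n (fun A => ∑ i ∈ s, Ψ i A) = ∑ i ∈ s, E0 n (Ψ i) := by
  unfold E0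
  rw [Finset.sum_comm, Finset.sum_div]

lemma E0_const (n : ℕ) (a : ℝ) : E0 n (fun _ => a) = a := by
  unfold E0
  rw [Finset.sum_const, Finset.card_powerset, Finset.card_range, nsmul_eq_mul]
  push_cast
  field_simp

lemma E0_nonneg {n : ℕ} {Ψ : Finset ℕ → ℝ} (h : ∀ A, 0 ≤ Ψ A) : 0 ≤ E0 n Ψ := by
  unfold E0
  exact div_nonneg (Finset.sum_nonneg fun A _ => h A) (by positivity)

/-- dependence on the steps before `k` only -/
def Ad {α : Type} (k : ℕ) (Ψ : Finset ℕ → α) : Prop :=
  ∀ A A', (∀ j < k, j ∈ A ↔ j ∈ A') → Ψ A = Ψ A'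

lemma Ad.mono {α : Type} {k l : ℕ} (h : k ≤ l) {Ψ : Finset ℕ → α} (hΨ : Ad k Ψ) : Ad l Ψ :=
  fun A A' hA => hΨ A A' fun j hj => hA j (by omega)

lemma Ad.insert {α : Type} {k : ℕ} {Ψ : Finset ℕ → α} (h : Ad k Ψ) (A : Finset ℕ) :
    Ψ (insert k A) = Ψ A :=
  h _ _ fun j hj => by
    rw [Finset.mem_insert]
    constructor
    · rintro (h1 | h1)
      · omega
      · exact h1
    · exact Or.inr

lemma pos_ad (k : ℕ) : Ad k fun A => pos A k := by
  intro A A' h
  unfold pos st
  apply Finset.sum_congr rfl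
  intro j hj
  have := h j (Finset.mem_range.mp hj)
  by_cases hA : j ∈ A
  · rw [if_pos hA, if_pos (this.mp hA)]
  · rw [if_neg hA, if_neg (fun h' => hA (this.mpr h'))]

lemma vis_ad (k : ℕ) : Ad k fun A => vis A k := by
  intro A A' h
  unfold vis
  apply congrArg Finset.card
  apply Finset.filter_congr
  intro m hm
  have hm' := Finset.mem_range.mp hm
  have h1 : pos A m = pos A' m := pos_ad m A A' fun j hj => h j (by omega)
  have h2 : pos A k = pos A' k := pos_ad k A A' h
  rw [h1, h2]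

lemma ck_ad (k : ℕ) : Ad k fun A => ck A k := by
  intro A A' h
  exact Prod.ext (pos_ad k A A' h) (vis_ad k A A' h)

lemma st_ad (k : ℕ) : Ad (k + 1) fun A => st A k := by
  intro A A' h
  unfold st
  have := h k (Nat.lt_succ_self k)
  by_cases hA : k ∈ A
  · simp only [if_pos hA, if_pos (this.mp hA)]
  · simp only [if_neg hA, if_neg (fun h' => hA (this.mpr h'))]

lemma pos_succ (A : Finset ℕ) (k : ℕ) : pos A (k + 1) = pos A k + st A k := by
  unfold pos; rw [Finset.sum_range_succ]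

lemma st_of_sub {A : Finset ℕ} {n : ℕ} (h : A ⊆ range n) : st A n = -1 := by
  unfold st
  rw [if_neg]
  intro hn
  exact absurd (Finset.mem_range.mp (h hn)) (lt_irrefl n)

lemma st_insert (A : Finset ℕ) (n : ℕ) : st (insert n A) n = 1 := by
  unfold st; simp

/-- one step -/
lemma E0_step {n : ℕ} {Ψ : Finset ℕ → ℝ} (hΨ : Ad n Ψ) (f : ℤ → ℤ → ℝ) :
    E0 (n + 1) (fun A => Ψ A * f (pos A n) (st A n))
      = E0 n fun A => Ψ A * ((f (pos A n) 1 + f (pos A n) (-1)) / 2) := by
  rw [E0_succ]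
  apply E0_congr
  intro A hA
  rw [hΨ.insert, (pos_ad n).insert, st_insert, st_of_sub hA]
  ring

lemma E0_ad {n k : ℕ} (h : k ≤ n) {Ψ : Finset ℕ → ℝ} (hΨ : Ad k Ψ) : E0 n Ψ = E0 k Ψ := by
  induction n, h using Nat.le_induction with
  | base => rfl
  | succ n hn ih =>
    rw [← ih, E0_succ]
    apply E0_congr
    intro A _
    rw [(hΨ.mono hn).insert]
    ring

/-- averaging a cosine -/
lemma E0_cos (y : ℝ) {n k : ℕ} (h : k ≤ n) {Ψ : Finset ℕ → ℝ} (hΨ : Ad k Ψ) :
    E0 n (fun A => Ψ A * Real.cos (y * pos A n))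
      = Real.cos y ^ (n - k) * E0 k (fun A => Ψ A * Real.cos (y * pos A k)) := by
  induction n, h using Nat.le_induction with
  | base => simp
  | succ n hn ih =>
    have h1 : E0 (n + 1) (fun A => Ψ A * Real.cos (y * pos A (n + 1)))
        = E0 (n + 1) (fun A => Ψ A * (fun p s : ℤ => Real.cos (y * (p + s))) (pos A n) (st A n)) := by
      apply E0_congr
      intro A _
      rw [pos_succ]
      push_cast
      rfl
    rw [h1, E0_step (hΨ.mono hn) (fun p s : ℤ => Real.cos (y * (p + s)))]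
    have h2 : E0 n (fun A => Ψ A * (((fun p s : ℤ => Real.cos (y * (p + s))) (pos A n) 1
        + (fun p s : ℤ => Real.cos (y * (p + s))) (pos A n) (-1)) / 2))
        = Real.cos y * E0 n (fun A => Ψ A * Real.cos (y * pos A n)) := by
      rw [← E0_mul]
      apply E0_congr
      intro A _
      have e1 : Real.cos (y * ((pos A n : ℝ) + ((1 : ℤ) : ℝ)))
          + Real.cos (y * ((pos A n : ℝ) + ((-1 : ℤ) : ℝ)))
          = 2 * (Real.cos (y * pos A n) * Real.cos y) := by
        have a1 : y * ((pos A n : ℝ) + ((1 : ℤ) : ℝ)) = y * pos A n + y := by push_cast; ring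
        have a2 : y * ((pos A n : ℝ) + ((-1 : ℤ) : ℝ)) = y * pos A n - y := by push_cast; ring
        rw [a1, a2, Real.cos_add, Real.cos_sub]
        ring
      simp only
      rw [e1]
      ring
    rw [h2, ih]
    have h3 : n + 1 - k = (n - k) + 1 := by omega
    rw [h3, pow_succ]
    ring

/-- correlation of a step with the final cosine -/
lemma E0_step_cos (y : ℝ) {n k : ℕ} (h : k < n) {Ψ : Finset ℕ → ℝ} (hΨ : Ad k Ψ) :
    E0 n (fun A => (st A k : ℝ) * Ψ A * Real.cos (y * pos A n))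
      = Real.cos y ^ (n - k - 1) * (-(Real.sin y)
        * E0 k (fun A => Ψ A * Real.sin (y * pos A k))) := by
  have hΨ' : Ad (k + 1) fun A => (st A k : ℝ) * Ψ A := by
    intro A A' hA
    have h1 : st A k = st A' k := st_ad k A A' hA
    have h2 : Ψ A = Ψ A' := hΨ A A' fun j hj => hA j (by omega)
    simp only
    rw [h1, h2]
  rw [E0_cos y (Nat.succ_le_of_lt h) hΨ']
  have h3 : n - (k + 1) = n - k - 1 := by omega
  rw [h3]
  congr 1
  have h4 : E0 (k + 1) (fun A => (st A k : ℝ) * Ψ A * Real.cos (y * pos A (k + 1)))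
      = E0 (k + 1) (fun A => Ψ A * (fun p s : ℤ => (s : ℝ) * Real.cos (y * (p + s)))
        (pos A k) (st A k)) := by
    apply E0_congr
    intro A _
    simp only
    rw [pos_succ]
    push_cast
    ring
  rw [h4, E0_step hΨ (fun p s : ℤ => (s : ℝ) * Real.cos (y * (p + s))), ← E0_mul]
  apply E0_congr
  intro A _
  have a1 : y * ((pos A k : ℝ) + ((1 : ℤ) : ℝ)) = y * pos A k + y := by push_cast; ring
  have a2 : y * ((pos A k : ℝ) + ((-1 : ℤ) : ℝ)) = y * pos A k - y := by push_cast; ring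
  rw [a1, a2, Real.cos_add, Real.cos_sub]
  push_cast
  ring

end Pool.Agent.R815.Ck
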