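import Pool.Agent.R815.Ck.Main

/-!
# The probability space, and failure of the quenched central limit theorem
-/

namespace Pool.Agent.R815.Ck

open Finset Function MeasureTheory ProbabilityTheory Filter Topology

variable {Ω : Type} [MeasurableSpace Ω] {P : Measure Ω} [IsProbabilityMeasure P]

lemma ae_pm {ρ : ℝ} (h0 : 0 < ρ) {t : ℤ × ℕ → Ω → ℝ} (hm : ∀ c, Measurable (t c))
    (hp : ∀ c, P (t c ⁻¹' {ρ}) = 1 / 2) (hq : ∀ c, P (t c ⁻¹' {-ρ}) = 1 / 2) :
    ∀ᵐ ω ∂P, ∀ c, t c ω = ρ ∨ t c ω = -ρ := by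
  rw [ae_all_iff]
  intro c
  have h1 : P (t c ⁻¹' {ρ} ∪ t c ⁻¹' {-ρ}) = 1 := by
    rw [measure_union _ (hm c (measurableSet_singleton _)), hp, hq]
    · exact ENNReal.add_halves 1
    · apply Disjoint.preimage
      rw [Set.disjoint_singleton]
      intro h
      linarith
  have h2 : MeasurableSet (t c ⁻¹' {ρ} ∪ t c ⁻¹' {-ρ}) :=
    (hm c (measurableSet_singleton _)).union (hm c (measurableSet_singleton _))
  have h3 := (prob_compl_eq_zero_iff h2).mpr h1
  rw [ae_iff]
  convert h3 using 2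
  ext ω
  simp

lemma integral_eq_Av {ρ : ℝ} (h0 : 0 < ρ) {t : ℤ × ℕ → Ω → ℝ} (hm : ∀ c, Measurable (t c))
    (hi : iIndepFun t P)
    (hp : ∀ c, P (t c ⁻¹' {ρ}) = 1 / 2) (hq : ∀ c, P (t c ⁻¹' {-ρ}) = 1 / 2)
    {B : Finset (ℤ × ℕ)} {H : (ℤ × ℕ → ℝ) → ℝ} (hD : Dep B H) :
    ∫ ω, H (fun c => t c ω) ∂P = Av ρ B H := by
  classical
  set E : Finset (ℤ × ℕ) → Set Ω := fun A => ⋂ c ∈ B, t c ⁻¹' {sg ρ A c} with hE
  have hEm : ∀ A, MeasurableSet (E A) := by
    intro A
    exact Finset.measurableSet_biInter _ fun c _ => hm c (measurableSet_singleton _)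
  have hEP : ∀ A, P (E A) = (1 / 2) ^ B.card := by
    intro A
    rw [hE]
    simp only
    rw [hi.measure_inter_preimage_eq_mul B (fun c _ => measurableSet_singleton _)]
    rw [← Finset.prod_const]
    apply Finset.prod_congr rfl
    intro c _
    unfold sg
    split_ifs
    · exact hp c
    · exact hq c
  have hae : ∀ᵐ ω ∂P, H (fun c => t c ω)
      = ∑ A ∈ B.powerset, (E A).indicator (fun _ => H (sg ρ A)) ω := by
    filter_upwards [ae_pm h0 hm hp hq] with ω hω
    set A0 := B.filter fun c => t c ω = ρ with hA0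
    have hne : ρ ≠ -ρ := by intro h; linarith
    have hmem : ∀ c ∈ B, t c ω = sg ρ A0 c := by
      intro c hc
      unfold sg
      rcases hω c with h | h
      · rw [if_pos (Finset.mem_filter.mpr ⟨hc, h⟩), h]
      · rw [if_neg, h]
        intro h'
        have := (Finset.mem_filter.mp h').2
        rw [h] at this
        exact hne this.symm
    rw [Finset.sum_eq_single A0]
    · rw [Set.indicator_of_mem]
      · exact hD _ _ hmem
      · rw [hE]
        simp only [Set.mem_iInter, Set.mem_preimage, Set.mem_singleton_iff]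
        exact hmem
    · intro A hA hAne
      apply Set.indicator_of_notMem
      intro hmem'
      apply hAne
      rw [hE] at hmem'
      simp only [Set.mem_iInter, Set.mem_preimage, Set.mem_singleton_iff] at hmem'
      have hAB := Finset.mem_powerset.mp hA
      ext c
      constructor
      · intro hc
        have h1 := hmem' c (hAB hc)
        unfold sg at h1
        rw [if_pos hc] at h1
        exact Finset.mem_filter.mpr ⟨hAB hc, h1⟩
      · intro hc
        obtain ⟨hcB, hct⟩ := Finset.mem_filter.mp hc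
        by_contra hcA
        have h1 := hmem' c hcB
        unfold sg at h1
        rw [if_neg hcA, hct] at h1
        exact hne h1
    · intro h
      exact absurd (Finset.mem_powerset.mpr (Finset.filter_subset _ _)) h
  rw [integral_congr_ae hae, integral_finsetSum]
  · unfold Av
    rw [Finset.sum_div]
    apply Finset.sum_congr rfl
    intro A _
    rw [integral_indicator_const _ (hEm A)]
    unfold Measure.real
    rw [hEP, smul_eq_mul, ENNReal.toReal_pow]
    simp only [one_div, ENNReal.toReal_inv, ENNReal.toReal_ofNat]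
    rw [inv_pow]
    ring
  · intro A _
    exact (integrable_const _).indicator (hEm A)

lemma Q_meas {t : ℤ × ℕ → Ω → ℝ} (hm : ∀ c, Measurable (t c)) (n : ℕ) (g : ℤ → ℝ) :
    Measurable fun ω => Q n g (fun c => t c ω) := by
  unfold Q W
  apply Finset.measurable_sum
  intro A _
  apply Measurable.mul_const
  apply Finset.measurable_prod
  intro k _
  apply Measurable.div_const
  apply Measurable.const_add
  exact (hm _).const_mul _

/-- Gaussian limit for the environment with parameters `t` -/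
def GaussLim (t : ℤ × ℕ → ℝ) : Prop :=
  ∃ (c : ℕ → ℝ) (v : NNReal), 0 < v ∧ ∀ g : BoundedContinuousFunction ℝ ℝ,
    Tendsto (fun n : ℕ => Q n (fun z => g (((z : ℝ) - c n) / Real.sqrt n)) t) atTop
      (𝓝 (∫ x, g x ∂(gaussianReal 0 v)))

lemma int_cos (v : NNReal) (s : ℝ) :
    ∫ x, Real.cos (s * x) ∂(gaussianReal 0 v) = Real.exp (-(v * s ^ 2 / 2)) := by
  have h := charFun_gaussianReal (μ := 0) (v := v) s
  rw [charFun_apply_real] at h
  have hint : Integrable (fun x : ℝ => Complex.exp (s * x * Complex.I)) (gaussianReal 0 v) := by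
    apply Integrable.mono' (integrable_const (1 : ℝ))
    · fun_prop
    · filter_upwards with x
      rw [← Complex.ofReal_mul, Complex.norm_exp_ofReal_mul_I]
  have h2 := Complex.reCLM.integral_comp_comm hint
  rw [h] at h2
  have h3 : ∀ x : ℝ, Complex.reCLM (Complex.exp (s * x * Complex.I)) = Real.cos (s * x) := by
    intro x
    rw [← Complex.ofReal_mul]
    exact Complex.exp_ofReal_mul_I_re _
  simp only [h3] at h2
  rw [h2]
  have h4 : (s : ℂ) * ((0 : ℝ) : ℂ) * Complex.I - (v : ℝ) * (s : ℂ) ^ 2 / 2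
      = ((-(v * s ^ 2 / 2) : ℝ) : ℂ) := by
    push_cast; ring
  have h5 : Complex.reCLM (Complex.exp ((s : ℂ) * ((0 : ℝ) : ℂ) * Complex.I
      - (v : ℝ) * (s : ℂ) ^ 2 / 2)) = Real.exp (-(v * s ^ 2 / 2)) := by
    rw [h4, ← Complex.ofReal_exp]
    exact Complex.ofReal_re _
  exact h5

lemma int_sin (v : NNReal) (s : ℝ) :
    ∫ x, Real.sin (s * x) ∂(gaussianReal 0 v) = 0 := by
  have h := charFun_gaussianReal (μ := 0) (v := v) s
  rw [charFun_apply_real] at h
  have hint : Integrable (fun x : ℝ => Complex.exp (s * x * Complex.I)) (gaussianReal 0 v) := by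
    apply Integrable.mono' (integrable_const (1 : ℝ))
    · fun_prop
    · filter_upwards with x
      rw [← Complex.ofReal_mul, Complex.norm_exp_ofReal_mul_I]
  have h2 := Complex.imCLM.integral_comp_comm hint
  rw [h] at h2
  have h3 : ∀ x : ℝ, Complex.imCLM (Complex.exp (s * x * Complex.I)) = Real.sin (s * x) := by
    intro x
    rw [← Complex.ofReal_mul]
    exact Complex.exp_ofReal_mul_I_im _
  simp only [h3] at h2
  rw [h2]
  have h4 : (s : ℂ) * ((0 : ℝ) : ℂ) * Complex.I - (v : ℝ) * (s : ℂ) ^ 2 / 2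
      = ((-(v * s ^ 2 / 2) : ℝ) : ℂ) := by
    push_cast; ring
  have h5 : Complex.imCLM (Complex.exp ((s : ℂ) * ((0 : ℝ) : ℂ) * Complex.I
      - (v : ℝ) * (s : ℂ) ^ 2 / 2)) = 0 := by
    rw [h4, ← Complex.ofReal_exp]
    exact Complex.ofReal_im (Real.exp (-(v * s ^ 2 / 2)))
  exact h5

lemma Q_add (n : ℕ) (g h : ℤ → ℝ) (t : ℤ × ℕ → ℝ) :
    Q n (fun z => g z + h z) t = Q n g t + Q n h t := by
  unfold Q
  rw [← Finset.sum_add_distrib]
  apply Finset.sum_congr rfl
  intro A _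
  ring

lemma Q_mul (n : ℕ) (a : ℝ) (g : ℤ → ℝ) (t : ℤ × ℕ → ℝ) :
    Q n (fun z => a * g z) t = a * Q n g t := by
  unfold Q
  rw [Finset.mul_sum]
  apply Finset.sum_congr rfl
  intro A _
  ring

lemma four_lip {x y : ℝ} (hx : |x| ≤ 1) (hy : |y| ≤ 1) : |x ^ 4 - y ^ 4| ≤ 4 * |x - y| := by
  have h : x ^ 4 - y ^ 4 = ((x + y) * (x ^ 2 + y ^ 2)) * (x - y) := by ring
  rw [h, abs_mul]
  apply mul_le_mul_of_nonneg_right _ (abs_nonneg _)
  rw [abs_mul]
  have h1 : |x + y| ≤ 2 := (abs_add_le x y).trans (by linarith)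
  have h2 : |x ^ 2 + y ^ 2| ≤ 2 := by
    rw [abs_of_nonneg (by positivity), ← sq_abs x, ← sq_abs y]
    have := pow_le_one₀ (n := 2) (abs_nonneg x) hx
    have := pow_le_one₀ (n := 2) (abs_nonneg y) hy
    linarith
  calc |x + y| * |x ^ 2 + y ^ 2| ≤ 2 * 2 := mul_le_mul h1 h2 (abs_nonneg _) (by norm_num)
    _ = 4 := by norm_num

lemma Ph_bound {t : ℤ × ℕ → ℝ} (ht : ∀ c, |t c| ≤ 1) (n : ℕ) (y : ℝ) : |Ph n y t| ≤ 3 := by
  unfold Ph
  have h1 : |Q n (fun z => Real.cos (y * z)) t| ≤ 1 := Q_abs ht n fun z => Real.abs_cos_le_one _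
  have h2 : |Q n (fun z => Real.sin (y * z)) t| ≤ 1 := Q_abs ht n fun z => Real.abs_sin_le_one _
  have h3 : |Q n (fun z => Real.cos (2 * y * z)) t| ≤ 1 :=
    Q_abs ht n fun z => Real.abs_cos_le_one _
  have h4 : |Q n (fun z => Real.cos (y * z)) t ^ 4| ≤ 1 := by
    rw [abs_pow]; exact pow_le_one₀ (abs_nonneg _) h1
  have h5 : |Q n (fun z => Real.sin (y * z)) t ^ 4| ≤ 1 := by
    rw [abs_pow]; exact pow_le_one₀ (abs_nonneg _) h2
  rw [abs_le] at *
  constructor <;> linarith [h3.1, h3.2, h4.1, h4.2, h5.1, h5.2]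

/-- the functional tends to zero if the limit law is Gaussian -/
lemma Ph_est {t : ℤ × ℕ → ℝ} (ht : ∀ c, |t c| ≤ 1) {N : ℕ} (hN : 1 ≤ N) (c a : ℝ) (ha : |a| ≤ 1) :
    |Ph (N ^ 2) (1 / (N : ℝ)) t| ≤
      8 * (|Q (N ^ 2) (fun z => Real.cos (1 * (((z : ℝ) - c) / N))) t - a|
        + |Q (N ^ 2) (fun z => Real.sin (1 * (((z : ℝ) - c) / N))) t|)
      + (|Q (N ^ 2) (fun z => Real.cos (2 * (((z : ℝ) - c) / N))) t - a ^ 4|
        + |Q (N ^ 2) (fun z => Real.sin (2 * (((z : ℝ) - c) / N))) t|) := by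
  set u := c / (N : ℝ) with hu
  set α := Q (N ^ 2) (fun z => Real.cos (1 * (((z : ℝ) - c) / N))) t with hα
  set β := Q (N ^ 2) (fun z => Real.sin (1 * (((z : ℝ) - c) / N))) t with hβ
  set α2 := Q (N ^ 2) (fun z => Real.cos (2 * (((z : ℝ) - c) / N))) t with hα2
  set β2 := Q (N ^ 2) (fun z => Real.sin (2 * (((z : ℝ) - c) / N))) t with hβ2
  have hN0 : (0 : ℝ) < N := by exact_mod_cast hN
  have hz : ∀ z : ℤ, 1 / (N : ℝ) * z = 1 * (((z : ℝ) - c) / N) + u := by
    intro z; rw [hu]; field_simp; ring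
  have hz2 : ∀ z : ℤ, 2 * (1 / (N : ℝ)) * z = 2 * (((z : ℝ) - c) / N) + 2 * u := by
    intro z; rw [hu]; field_simp; ring
  have hF : Q (N ^ 2) (fun z => Real.cos (1 / (N : ℝ) * z)) t
      = Real.cos u * α + -Real.sin u * β := by
    rw [hα, hβ, ← Q_mul, ← Q_mul, ← Q_add]
    congr 1
    funext z
    rw [hz, Real.cos_add]
    ring
  have hS : Q (N ^ 2) (fun z => Real.sin (1 / (N : ℝ) * z)) t
      = Real.sin u * α + Real.cos u * β := by
    rw [hα, hβ, ← Q_mul, ← Q_mul, ← Q_add]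
    congr 1
    funext z
    rw [hz, Real.sin_add]
    ring
  have hC : Q (N ^ 2) (fun z => Real.cos (2 * (1 / (N : ℝ)) * z)) t
      = Real.cos (2 * u) * α2 + -Real.sin (2 * u) * β2 := by
    rw [hα2, hβ2, ← Q_mul, ← Q_mul, ← Q_add]
    congr 1
    funext z
    rw [hz2, Real.cos_add]
    ring
  have b1 : |Q (N ^ 2) (fun z => Real.cos (1 / (N : ℝ) * z)) t| ≤ 1 :=
    Q_abs ht _ fun z => Real.abs_cos_le_one _
  have b2 : |Q (N ^ 2) (fun z => Real.sin (1 / (N : ℝ) * z)) t| ≤ 1 :=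
    Q_abs ht _ fun z => Real.abs_sin_le_one _
  unfold Ph
  rw [hF, hS, hC]
  rw [hF] at b1
  rw [hS] at b2
  have c1 : |a * Real.cos u| ≤ 1 := by
    rw [abs_mul]
    exact mul_le_one₀ ha (abs_nonneg _) (Real.abs_cos_le_one _)
  have c2 : |a * Real.sin u| ≤ 1 := by
    rw [abs_mul]
    exact mul_le_one₀ ha (abs_nonneg _) (Real.abs_sin_le_one _)
  have d1 : |Real.cos u * α + -Real.sin u * β - a * Real.cos u| ≤ |α - a| + |β| := by
    have : Real.cos u * α + -Real.sin u * β - a * Real.cos u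
        = Real.cos u * (α - a) + -Real.sin u * β := by ring
    rw [this]
    refine (abs_add_le _ _).trans ?_
    rw [abs_mul, abs_mul, abs_neg]
    exact add_le_add (mul_le_of_le_one_left (abs_nonneg _) (Real.abs_cos_le_one _))
      (mul_le_of_le_one_left (abs_nonneg _) (Real.abs_sin_le_one _))
  have d2 : |Real.sin u * α + Real.cos u * β - a * Real.sin u| ≤ |α - a| + |β| := by
    have : Real.sin u * α + Real.cos u * β - a * Real.sin u
        = Real.sin u * (α - a) + Real.cos u * β := by ring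
    rw [this]
    refine (abs_add_le _ _).trans ?_
    rw [abs_mul, abs_mul]
    exact add_le_add (mul_le_of_le_one_left (abs_nonneg _) (Real.abs_sin_le_one _))
      (mul_le_of_le_one_left (abs_nonneg _) (Real.abs_cos_le_one _))
  have d3 : |Real.cos (2 * u) * α2 + -Real.sin (2 * u) * β2 - a ^ 4 * Real.cos (2 * u)|
      ≤ |α2 - a ^ 4| + |β2| := by
    have : Real.cos (2 * u) * α2 + -Real.sin (2 * u) * β2 - a ^ 4 * Real.cos (2 * u)
        = Real.cos (2 * u) * (α2 - a ^ 4) + -Real.sin (2 * u) * β2 := by ring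
    rw [this]
    refine (abs_add_le _ _).trans ?_
    rw [abs_mul, abs_mul, abs_neg]
    exact add_le_add (mul_le_of_le_one_left (abs_nonneg _) (Real.abs_cos_le_one _))
      (mul_le_of_le_one_left (abs_nonneg _) (Real.abs_sin_le_one _))
  have e1 := four_lip b1 c1
  have e2 := four_lip b2 c2
  have hzero : (a * Real.cos u) ^ 4 - (a * Real.sin u) ^ 4 - a ^ 4 * Real.cos (2 * u) = 0 := by
    rw [Real.cos_two_mul]
    have := Real.sin_sq_add_cos_sq u
    have h2 : Real.sin u ^ 2 = 1 - Real.cos u ^ 2 := by linarith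
    have h4 : (a * Real.sin u) ^ 4 = a ^ 4 * (Real.sin u ^ 2) ^ 2 := by ring
    rw [h4, h2]
    ring
  rw [abs_le] at e1 e2 d3 ⊢
  constructor <;> linarith [e1.1, e1.2, e2.1, e2.2, d3.1, d3.2]

lemma gaussLim_tendsto {t : ℤ × ℕ → ℝ} (ht : ∀ c, |t c| ≤ 1) (h : GaussLim t) :
    Tendsto (fun N : ℕ => Ph (N ^ 2) (1 / (N : ℝ)) t) atTop (𝓝 0) := by
  obtain ⟨c, v, _, hg⟩ := h
  set a := Real.exp (-(v * (1 : ℝ) ^ 2 / 2)) with ha
  have hv0 : (0 : ℝ) ≤ v := v.coe_nonneg
  have ha1 : |a| ≤ 1 := by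
    rw [abs_of_pos (Real.exp_pos _), Real.exp_le_one_iff]
    nlinarith
  have ha4 : Real.exp (-(v * (2 : ℝ) ^ 2 / 2)) = a ^ 4 := by
    rw [ha, ← Real.exp_nat_mul]
    congr 1
    push_cast
    ring
  have hpow : Tendsto (fun N : ℕ => N ^ 2) atTop atTop :=
    tendsto_pow_atTop (by norm_num)
  let gc : ℝ → BoundedContinuousFunction ℝ ℝ := fun s =>
    BoundedContinuousFunction.ofNormedAddCommGroup (fun x : ℝ => Real.cos (s * x))
      (by fun_prop) 1 (fun x => by rw [Real.norm_eq_abs]; exact Real.abs_cos_le_one _)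
  let gs : ℝ → BoundedContinuousFunction ℝ ℝ := fun s =>
    BoundedContinuousFunction.ofNormedAddCommGroup (fun x : ℝ => Real.sin (s * x))
      (by fun_prop) 1 (fun x => by rw [Real.norm_eq_abs]; exact Real.abs_sin_le_one _)
  have hc : ∀ s : ℝ, Tendsto (fun N : ℕ => Q (N ^ 2)
      (fun z => Real.cos (s * (((z : ℝ) - c (N ^ 2)) / N))) t) atTop
      (𝓝 (Real.exp (-(v * s ^ 2 / 2)))) := by
    intro s
    have h1 := (hg (gc s)).comp hpow
    have h2 : ∫ x, (gc s) x ∂(gaussianReal 0 v) = Real.exp (-(v * s ^ 2 / 2)) := int_cos v s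
    rw [h2] at h1
    refine h1.congr fun N => ?_
    simp only [Function.comp]
    congr 1
    funext z
    change Real.cos (s * (((z : ℝ) - c (N ^ 2)) / Real.sqrt ((N ^ 2 : ℕ) : ℝ))) = _
    rw [Nat.cast_pow, Real.sqrt_sq (Nat.cast_nonneg N)]
  have hs : ∀ s : ℝ, Tendsto (fun N : ℕ => Q (N ^ 2)
      (fun z => Real.sin (s * (((z : ℝ) - c (N ^ 2)) / N))) t) atTop (𝓝 0) := by
    intro s
    have h1 := (hg (gs s)).comp hpow
    have h2 : ∫ x, (gs s) x ∂(gaussianReal 0 v) = 0 := int_sin v s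
    rw [h2] at h1
    refine h1.congr fun N => ?_
    simp only [Function.comp]
    congr 1
    funext z
    change Real.sin (s * (((z : ℝ) - c (N ^ 2)) / Real.sqrt ((N ^ 2 : ℕ) : ℝ))) = _
    rw [Nat.cast_pow, Real.sqrt_sq (Nat.cast_nonneg N)]
  have l1 : Tendsto (fun N : ℕ => |Q (N ^ 2)
      (fun z => Real.cos (1 * (((z : ℝ) - c (N ^ 2)) / N))) t - a|) atTop (𝓝 0) := by
    have := ((hc 1).sub_const a).abs
    rw [← ha, sub_self, abs_zero] at this
    exact this
  have l2 : Tendsto (fun N : ℕ => |Q (N ^ 2)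
      (fun z => Real.sin (1 * (((z : ℝ) - c (N ^ 2)) / N))) t|) atTop (𝓝 0) := by
    have := (hs 1).abs
    rw [abs_zero] at this
    exact this
  have l3 : Tendsto (fun N : ℕ => |Q (N ^ 2)
      (fun z => Real.cos (2 * (((z : ℝ) - c (N ^ 2)) / N))) t - a ^ 4|) atTop (𝓝 0) := by
    have := ((hc 2).sub_const (a ^ 4)).abs
    rw [ha4, sub_self, abs_zero] at this
    exact this
  have l4 : Tendsto (fun N : ℕ => |Q (N ^ 2)
      (fun z => Real.sin (2 * (((z : ℝ) - c (N ^ 2)) / N))) t|) atTop (𝓝 0) := by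
    have := (hs 2).abs
    rw [abs_zero] at this
    exact this
  have l5 := ((l1.add l2).const_mul 8).add (l3.add l4)
  simp only [add_zero, mul_zero] at l5
  apply squeeze_zero_norm' _ l5
  filter_upwards [eventually_ge_atTop 1] with N hN
  rw [Real.norm_eq_abs]
  exact Ph_est ht hN (c (N ^ 2)) a ha1

/-- the quenched central limit theorem fails -/
theorem not_gaussLim {ρ : ℝ} (h0 : 0 < ρ) (h1 : ρ ≤ 1 / 1000000) {t : ℤ × ℕ → Ω → ℝ}
    (hm : ∀ c, Measurable (t c)) (hi : iIndepFun t P)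
    (hp : ∀ c, P (t c ⁻¹' {ρ}) = 1 / 2) (hq : ∀ c, P (t c ⁻¹' {-ρ}) = 1 / 2) :
    ¬ ∀ᵐ ω ∂P, GaussLim fun c => t c ω := by
  intro hGL
  have hle : ∀ᵐ ω ∂P, ∀ c, |t c ω| ≤ 1 := by
    filter_upwards [ae_pm h0 hm hp hq] with ω hω c
    rcases hω c with h | h
    · rw [h, abs_of_pos h0]; linarith
    · rw [h, abs_neg, abs_of_pos h0]; linarith
  have hlim : ∀ᵐ ω ∂P, Tendsto (fun N : ℕ => Ph (N ^ 2) (1 / (N : ℝ)) fun c => t c ω)
      atTop (𝓝 0) := by
    filter_upwards [hle, hGL] with ω h2 h3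
    exact gaussLim_tendsto h2 h3
  have hint := tendsto_integral_of_dominated_convergence (μ := P) (fun _ => (3 : ℝ))
    (F := fun (N : ℕ) ω => Ph (N ^ 2) (1 / (N : ℝ)) fun c => t c ω) (f := fun _ => (0 : ℝ))
    (fun N => by
      unfold Ph
      exact ((((Q_meas hm _ _).pow_const 4).sub ((Q_meas hm _ _).pow_const 4)).sub
        (Q_meas hm _ _)).aestronglyMeasurable)
    (integrable_const _)
    (fun N => by
      filter_upwards [hle] with ω h2
      rw [Real.norm_eq_abs]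
      exact Ph_bound h2 _ _)
    hlim
  rw [integral_zero] at hint
  have hge : ∀ᶠ N : ℕ in atTop, ρ ^ 2 / 500000000
      ≤ ∫ ω, Ph (N ^ 2) (1 / (N : ℝ)) (fun c => t c ω) ∂P := by
    filter_upwards [eventually_ge_atTop 10] with N hN
    classical
    have hB : Bn (N ^ 2) ⊆ Bn (N ^ 2) ∪ box N := Finset.subset_union_left
    have hB' : box N ⊆ Bn (N ^ 2) ∪ box N := Finset.subset_union_right
    have hD : Dep (Bn (N ^ 2) ∪ box N) (Ph (N ^ 2) (1 / (N : ℝ))) := by
      intro s s' hs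
      unfold Ph
      rw [Q_dep _ hB s s' hs, Q_dep _ hB s s' hs, Q_dep _ hB s s' hs]
    rw [integral_eq_Av h0 hm hi hp hq hD]
    exact main_lower hN h0 h1 hB hB'
  have := ge_of_tendsto hint hge
  have h2 : 0 < ρ ^ 2 := by positivity
  linarith

end Pool.Agent.R815.Ck
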